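import Pool.Agent.Lib.MP_2432f5_co.Build

/-! The words `U m n` avoid the pattern. -/

namespace Pool.Agent.Lib.MP_2432f5_co

open Ch

def pQ : List ℕ := [1, 6, 2, 6, 3, 6, 4, 6, 5, 7]
def pQ' : List ℕ := [11, 16, 12, 16, 13, 16, 14, 16, 15, 17]
def pF : List ℕ := [0, 1, 0, 2, 0, 3, 0, 4, 0, 5, 0, 7, 0]
def pF' : List ℕ := [0, 11, 0, 12, 0, 13, 0, 14, 0, 15, 0, 17, 0]

/-- the pattern -/
def pat : List ℕ :=
  pQ'.reverse ++ [21] ++ List.replicate K 0 ++ [22] ++ pF'.reverse ++ [23] ++ pF ++ [24] ++
    List.replicate K 0 ++ [25] ++ pQ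

theorem flatMap_replicate' (n : ℕ) (x : ℕ) (h : ℕ → List Ch) :
    (List.replicate n x).flatMap h = (List.replicate n (h x)).flatten := by
  simp [List.flatMap]

theorem pat_flatMap (h : ℕ → List Ch) : pat.flatMap h =
    pQ'.reverse.flatMap h ++ h 21 ++ (List.replicate K (h 0)).flatten ++ h 22 ++
      pF'.reverse.flatMap h ++ h 23 ++ pF.flatMap h ++ h 24 ++
      (List.replicate K (h 0)).flatten ++ h 25 ++ pQ.flatMap h := by
  simp only [pat, List.flatMap_append, flatMap_replicate', List.flatMap_cons, List.flatMap_nil,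
    List.append_nil]

/-! ### powers -/

theorem seg_R_eq {n : ℕ} (hn : 10 ≤ n) :
    seg R 0 n = List.replicate 10 a ++ seg T 1 (n - 10) := by
  obtain ⟨k, rfl⟩ : ∃ k, n = 10 + k := ⟨n - 10, by omega⟩
  rw [seg_add]
  congr 1
  unfold seg
  rw [Nat.add_sub_cancel_left]
  apply List.map_congr_left
  intro t _
  rw [show 0 + 10 + t = (1 + t) + 9 by ring, R_add]

theorem pow4 (X : List Ch) : (List.replicate 4 X).flatten = X ++ X ++ X ++ X := by
  simp [List.replicate, List.flatten]

theorem seg_T_no_pow4 {X : List Ch} (hX : X ≠ []) (n : ℕ) :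
    ¬ (List.replicate 4 X).flatten <:+: seg T 1 n := by
  intro h
  rw [pow4] at h
  obtain ⟨j, hj, hocc⟩ := occ_of_infix h
  exact T_no4 hX (by omega) hocc

theorem seg_T_rev_no_pow4 {X : List Ch} (hX : X ≠ []) (n : ℕ) :
    ¬ (List.replicate 4 X).flatten <:+: (seg T 1 n).reverse := by
  intro h
  rw [pow4, ← List.reverse_infix, List.reverse_reverse] at h
  have h2 : (X ++ X ++ X ++ X).reverse = (List.replicate 4 X.reverse).flatten := by
    rw [pow4]; simp
  rw [h2] at h
  exact seg_T_no_pow4 (by simpa using hX) n h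

theorem countP_pow (P : Ch → Bool) (N : ℕ) (X : List Ch) :
    (List.replicate N X).flatten.countP P = N * X.countP P := by
  induction N with
  | zero => simp
  | succ N ih =>
    rw [List.replicate_succ, List.flatten_cons, List.countP_append, ih]
    ring

/-- a `K`-th power in `U m n` is a power of `s` -/
theorem pow_all_s {m n : ℕ} (hm : 10 ≤ m) (hn : 10 ≤ n) {X : List Ch} (hX : X ≠ [])
    (h : (List.replicate K X).flatten <:+: U m n) : ∀ y ∈ X, y = s := by
  by_contra hcon
  push Not at hcon
  obtain ⟨y, hy, hys⟩ := hcon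
  obtain ⟨A, B, hAB⟩ := h
  set C := List.replicate 10 a ++ List.replicate K s ++ Mid ++ List.replicate K s ++
    List.replicate 10 a with hC
  have hU : U m n = (seg T 1 (m - 10)).reverse ++ (C ++ seg T 1 (n - 10)) := by
    rw [U_eq, seg_R_eq hm, seg_R_eq hn, hC]
    simp only [List.reverse_append, List.reverse_replicate, List.append_assoc]
  have hK : K = 4 + ((K - 8) + 4) := by rw [K_eq]; omega
  have hpow : (List.replicate K X).flatten = (List.replicate 4 X).flatten ++
      ((List.replicate (K - 8) X).flatten ++ (List.replicate 4 X).flatten) := by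
    conv_lhs => rw [hK]
    rw [List.replicate_add, List.replicate_add, List.flatten_append, List.flatten_append]
  rw [hpow, hU] at hAB
  have h1 : (A ++ (List.replicate 4 X).flatten) ++
      ((List.replicate (K - 8) X).flatten ++ ((List.replicate 4 X).flatten ++ B)) =
      (seg T 1 (m - 10)).reverse ++ (C ++ seg T 1 (n - 10)) := by
    rw [← hAB]; simp only [List.append_assoc]
  rcases List.append_eq_append_iff.1 h1 with ⟨as, ha1, ha2⟩ | ⟨bs, hb1, hb2⟩
  · exact seg_T_rev_no_pow4 hX _ ⟨A, as, by rw [ha1]⟩
  · have h2 : (bs ++ (List.replicate (K - 8) X).flatten) ++ ((List.replicate 4 X).flatten ++ B) =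
        C ++ seg T 1 (n - 10) := by
      rw [hb2]; simp only [List.append_assoc]
    rcases List.append_eq_append_iff.1 h2 with ⟨cs, hc1, hc2⟩ | ⟨ds, hd1, hd2⟩
    · -- the middle power lies in `C`
      have h3 : ((List.replicate (K - 8) X).flatten).countP (fun c => decide (c ≠ s)) ≤
          C.countP (fun c => decide (c ≠ s)) := by
        rw [hc1, List.countP_append, List.countP_append]
        omega
      rw [countP_pow] at h3
      have h4 : 1 ≤ X.countP (fun c => decide (c ≠ s)) := by
        rw [Nat.one_le_iff_ne_zero, ← Nat.pos_iff_ne_zero, List.countP_pos_iff]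
        exact ⟨y, hy, by simpa using hys⟩
      have h5 : C.countP (fun c => decide (c ≠ s)) ≤ 20 + Mid.length := by
        rw [hC]
        have h5' := List.countP_le_length (p := fun c : Ch => decide (c ≠ s)) (l := Mid)
        simp only [List.countP_append, List.countP_replicate]
        have e1 : (if decide (a ≠ s) = true then 10 else 0) = 10 := by decide
        have e2 : (if decide (s ≠ s) = true then K else 0) = 0 := by
          rw [if_neg (by decide)]
        rw [e1, e2]
        omega
      have h6 : Mid.length = 2 * MR.length + 15 := Mid_length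
      have h7 : (K - 8) * 1 ≤ (K - 8) * X.countP (fun c => decide (c ≠ s)) :=
        Nat.mul_le_mul_left _ h4
      have h8 : K = 2 * MR.length + 60 := K_eq
      omega
    · exact seg_T_no_pow4 hX (n - 10) ⟨ds, B, by rw [hd2]; simp only [List.append_assoc]⟩

theorem pow_replicate (N k : ℕ) : (List.replicate N (List.replicate k s)).flatten =
    List.replicate (N * k) s := by
  induction N with
  | zero => simp
  | succ N ih =>
    rw [List.replicate_succ, List.flatten_cons, ih, List.replicate_append_replicate]
    congr 1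
    ring

/-- alignment of a block of letters `s` -/
theorem align {Y : List Ch} (hY : ∀ Y', Y ≠ Y' ++ [s]) {k N : ℕ} (hk : 1 ≤ k) (hN : k ≤ N)
    (hYk : ¬ List.replicate k s <:+: Y) {c : Ch} (hc : c ≠ s) {P S Z : List Ch}
    (h : P ++ (List.replicate N s ++ S) = Y ++ (List.replicate k s ++ c :: Z)) :
    (P = Y ∧ N = k ∧ S = c :: Z) ∨
      ∃ P', P = Y ++ List.replicate k s ++ c :: P' ∧ P' ++ (List.replicate N s ++ S) = Z := by
  have heq : ∀ {N' : ℕ} {S' : List Ch}, k ≤ N' →
      List.replicate N' s ++ S' = List.replicate k s ++ c :: Z → N' = k ∧ S' = c :: Z := by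
    intro N' S' hN' h'
    obtain ⟨d, rfl⟩ : ∃ d, N' = k + d := ⟨N' - k, by omega⟩
    rw [List.replicate_add, List.append_assoc, List.append_cancel_left_eq] at h'
    rcases d with _ | d
    · simpa using h'
    · rw [List.replicate_succ, List.cons_append] at h'
      exact absurd (List.cons.inj h').1.symm hc
  rcases List.append_eq_append_iff.1 h with ⟨as, ha1, ha2⟩ | ⟨bs, hb1, hb2⟩
  · -- Y = P ++ as
    rcases as.eq_nil_or_concat with rfl | ⟨as', x, rfl⟩
    · left
      have := heq hN ha2
      refine ⟨by simpa using ha1.symm, this.1, this.2⟩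
    · exfalso
      rcases List.append_eq_append_iff.1 ha2 with ⟨es, he1, he2⟩ | ⟨fs, hf1, hf2⟩
      · -- as = replicate N s ++ es
        apply hYk
        obtain ⟨d, hd⟩ : ∃ d, N = k + d := ⟨N - k, by omega⟩
        refine ⟨P, List.replicate d s ++ es, ?_⟩
        rw [ha1, he1, hd, List.replicate_add]
        simp only [List.append_assoc]
      · -- replicate N s = as ++ fs
        have hx : x = s := by
          apply List.eq_of_mem_replicate (n := N)
          rw [hf1]
          simp
        subst hx
        exact hY (P ++ as') (by rw [ha1]; simp)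
  · -- P = Y ++ bs
    rcases List.append_eq_append_iff.1 hb2 with ⟨es, he1, he2⟩ | ⟨fs, hf1, hf2⟩
    · -- bs = replicate k s ++ es
      rcases es with _ | ⟨e, es⟩
      · exfalso
        simp only [List.nil_append] at he2
        obtain ⟨d, rfl⟩ : ∃ d, N = d + 1 := ⟨N - 1, by omega⟩
        rw [List.replicate_succ, List.cons_append] at he2
        exact hc (List.cons.inj he2).1
      · right
        rw [List.cons_append] at he2
        obtain ⟨rfl, h2⟩ := List.cons.inj he2
        exact ⟨es, by rw [hb1, he1]; simp only [List.append_assoc], h2.symm⟩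
    · -- replicate k s = bs ++ fs
      obtain ⟨i, rfl⟩ : ∃ i, bs = List.replicate i s := by
        refine ⟨bs.length, List.eq_replicate_iff.2 ⟨rfl, fun b hb => ?_⟩⟩
        apply List.eq_of_mem_replicate (n := k)
        rw [hf1]
        exact List.mem_append_left _ hb
      obtain ⟨j, rfl⟩ : ∃ j, fs = List.replicate j s := by
        refine ⟨fs.length, List.eq_replicate_iff.2 ⟨rfl, fun b hb => ?_⟩⟩
        apply List.eq_of_mem_replicate (n := k)
        rw [hf1]
        exact List.mem_append_right _ hb
      rcases i with _ | i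
      · left
        simp only [List.replicate_zero, List.nil_append, List.append_nil] at hf1 hb1
        rw [← hf1] at hf2
        have := heq hN hf2
        exact ⟨hb1, this.1, this.2⟩
      · exfalso
        have hlen : k = i + 1 + j := by
          have := congrArg List.length hf1
          simpa using this
        obtain ⟨d, rfl⟩ : ∃ d, N = j + (d + 1) := ⟨N - j - 1, by omega⟩
        rw [List.replicate_add, List.append_assoc, List.append_cancel_left_eq,
          List.replicate_succ, List.cons_append] at hf2
        exact hc (List.cons.inj hf2).1.symm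

theorem seg_R_no_s (i n : ℕ) : s ∉ seg R i n := by
  intro h
  obtain ⟨t, _, ht⟩ := mem_seg h
  exact R_ne_s _ ht.symm

theorem Mid_cons : ∃ M, Mid = a :: M := by
  refine ⟨(ents.flatMap (fun e => s :: sep (comps e))).reverse ++ Tr ++ MR, ?_⟩
  have h : MR.reverse = a :: (ents.flatMap (fun e => s :: sep (comps e))).reverse := by
    rw [MR_last, List.reverse_append, List.reverse_singleton, List.singleton_append]
  rw [Mid_eq, h]
  simp only [List.cons_append]

theorem Mid_concat : ∃ M, Mid = M ++ [a] := by
  refine ⟨MR.reverse ++ Tr ++ ents.flatMap (fun e => s :: sep (comps e)), ?_⟩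
  generalize hM : MR.reverse ++ Tr = G
  rw [Mid_eq, hM, MR_last, List.append_assoc]

theorem seg_R_concat {m : ℕ} (hm : 1 ≤ m) : ∃ M, (seg R 0 m).reverse = M ++ [a] := by
  obtain ⟨k, rfl⟩ : ∃ k, m = 1 + k := ⟨m - 1, by omega⟩
  refine ⟨(seg R 1 k).reverse, ?_⟩
  rw [seg_add, seg_one, List.reverse_append]
  rfl

theorem seg_R_cons {m : ℕ} (hm : 1 ≤ m) : ∃ M, seg R 0 m = a :: M := by
  obtain ⟨k, rfl⟩ : ∃ k, m = 1 + k := ⟨m - 1, by omega⟩
  refine ⟨seg R 1 k, ?_⟩
  rw [seg_add, seg_one]
  rfl

/-- the two blocks are located -/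
theorem blocks {m n : ℕ} (hm : 10 ≤ m) (hn : 10 ≤ n) {X A B W : List Ch} (hX : X ≠ [])
    (h : A ++ (List.replicate K X).flatten ++ W ++ (List.replicate K X).flatten ++ B = U m n) :
    X = [s] ∧ A = (seg R 0 m).reverse ∧ W = Mid ∧ B = seg R 0 n := by
  have hall := pow_all_s hm hn hX
    ⟨A, W ++ (List.replicate K X).flatten ++ B, by rw [← h]; simp only [List.append_assoc]⟩
  obtain ⟨k, rfl⟩ : ∃ k, X = List.replicate k s :=
    ⟨X.length, List.eq_replicate_iff.2 ⟨rfl, hall⟩⟩
  have hk : 1 ≤ k := by
    rcases k with _ | k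
    · simp at hX
    · omega
  have hK1 : 1 ≤ K := by rw [K_eq]; omega
  rw [pow_replicate] at h
  have hN : K ≤ K * k := Nat.le_mul_of_pos_right _ hk
  obtain ⟨M1, hM1⟩ := Mid_cons
  obtain ⟨M2, hM2⟩ := Mid_concat
  obtain ⟨L1, hL1⟩ := seg_R_concat (m := m) (by omega)
  obtain ⟨R1, hR1⟩ := seg_R_cons (m := n) (by omega)
  have nos : ∀ (Y : List Ch), s ∉ Y → ¬ List.replicate K s <:+: Y := by
    intro Y hY hcon
    apply hY
    apply hcon.subset
    exact List.mem_replicate.2 ⟨by omega, rfl⟩
  have hrev : s ∉ (seg R 0 m).reverse := by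
    rw [List.mem_reverse]; exact seg_R_no_s 0 m
  have lasta : ∀ (Y M : List Ch), Y = M ++ [a] → ∀ Y', Y ≠ Y' ++ [s] := by
    intro Y M hYM Y' hcon
    rw [hYM] at hcon
    have := List.append_inj_right' hcon rfl
    simp at this
  have hMidK : ¬ List.replicate K s <:+: Mid := by
    intro hcon
    have := hcon.length_le
    rw [List.length_replicate] at this
    have h6 : Mid.length = 2 * MR.length + 15 := Mid_length
    have h8 : K = 2 * MR.length + 60 := K_eq
    omega
  -- first block
  have h1 : A ++ (List.replicate (K * k) s ++ (W ++ List.replicate (K * k) s ++ B)) =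
      (seg R 0 m).reverse ++ (List.replicate K s ++ a :: (M1 ++ List.replicate K s ++ seg R 0 n)) := by
    rw [← List.append_assoc, ← List.append_assoc, ← List.append_assoc, h, U_eq, hM1]
    simp only [List.append_assoc, List.cons_append]
  have nolater : ∀ {P S : List Ch} (j : ℕ), ¬ (P ++ (List.replicate (K * k) s ++ S) = seg R j n) := by
    intro P S j hcon
    apply seg_R_no_s j n
    rw [← hcon]
    apply List.mem_append_right
    apply List.mem_append_left
    exact List.mem_replicate.2 ⟨by omega, rfl⟩
  have nolater' : ∀ {P S : List Ch}, ¬ (P ++ (List.replicate (K * k) s ++ S) = R1) := by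
    intro P S hcon
    apply nolater (P := a :: P) (S := S) 0
    rw [List.cons_append, hcon, hR1]
  have hY2 : ∀ {P S : List Ch},
      P ++ (List.replicate (K * k) s ++ S) = Mid ++ (List.replicate K s ++ seg R 0 n) →
      P = Mid ∧ K * k = K ∧ S = seg R 0 n := by
    intro P S h2
    rw [hR1] at h2
    rcases align (lasta _ _ hM2) hK1 hN hMidK (by simp) h2 with h3 | ⟨P', h3, h4⟩
    · rw [hR1]; exact h3
    · exact absurd h4 nolater'
  rcases align (lasta _ _ hL1) hK1 hN (nos _ hrev) (by simp) h1 with ⟨hA, hNk, hS⟩ | ⟨P', hP, hZ⟩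
  · have h2 : W ++ (List.replicate (K * k) s ++ B) = Mid ++ (List.replicate K s ++ seg R 0 n) := by
      rw [hM1]
      simpa only [List.append_assoc, List.cons_append] using hS
    obtain ⟨hW, _, hB⟩ := hY2 h2
    have hk1 : k = 1 := by
      have : K * k = K * 1 := by rw [hNk, mul_one]
      exact Nat.eq_of_mul_eq_mul_left (by omega) this
    subst hk1
    exact ⟨by simp, hA, hW, hB⟩
  · exfalso
    have h2 : (a :: P') ++ (List.replicate (K * k) s ++ (W ++ List.replicate (K * k) s ++ B)) =
        Mid ++ (List.replicate K s ++ seg R 0 n) := by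
      rw [List.cons_append, hZ, hM1]
      simp only [List.append_assoc, List.cons_append]
    obtain ⟨_, _, hS⟩ := hY2 h2
    apply nolater (P := W) (S := B) 0
    rw [← hS]
    simp only [List.append_assoc]

end Pool.Agent.Lib.MP_2432f5_co
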