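import Pool.Agent.Lib.MP_2432f5_co.Truth

/-! The dictionary word, the pattern and the parsing lemmas. -/

namespace Pool.Agent.Lib.MP_2432f5_co

open Ch

/-- components separated by `s`, with `s` at both ends -/
def sep (l : List (List Ch)) : List Ch := l.flatMap (fun c => s :: c) ++ [s]

def comps (e : Ent) : List (List Ch) := [[e.c0], [u, e.c1], [u, e.c2], [u, e.c3], e.c4, [e.d]]

/-- the dictionary -/
def MR : List Ch := ents.flatMap (fun e => s :: sep (comps e)) ++ [a]

/-- the trivial entry, a palindrome -/
def Tr : List Ch := [s, u, s, a, s, a, s, a, s, a, s, a, s, u, s]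

def K : ℕ := 2 * MR.length + 60

def Mid : List Ch := MR.reverse ++ Tr ++ MR

/-- the words around the dictionary -/
def U (m n : ℕ) : List Ch :=
  (seg R 0 m).reverse ++ List.replicate K s ++ Mid ++ List.replicate K s ++ seg R 0 n

theorem Tr_reverse : Tr.reverse = Tr := by decide

theorem Mid_reverse : Mid.reverse = Mid := by
  simp [Mid, Tr_reverse, List.reverse_append]

theorem U_reverse (m n : ℕ) : (U m n).reverse = U n m := by
  simp [U, Mid_reverse, List.reverse_append, List.reverse_replicate]

/-! ### pieces -/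

/-- the pieces between the letters `s` -/
def pcs : List Ch → List (List Ch)
  | [] => [[]]
  | c :: w => if c = s then [] :: pcs w else
      match pcs w with
      | [] => [[c]]
      | p :: ps => (c :: p) :: ps

theorem pcs_ne_nil (w : List Ch) : pcs w ≠ [] := by
  cases w with
  | nil => simp [pcs]
  | cons c w =>
    unfold pcs
    split_ifs
    · simp
    · split <;> simp

theorem pcs_cons_s (w : List Ch) : pcs (s :: w) = [] :: pcs w := by
  rw [pcs]; simp

theorem pcs_append_s (A B : List Ch) : pcs (A ++ s :: B) = pcs A ++ pcs B := by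
  induction A with
  | nil => simp [pcs]
  | cons c A ih =>
    rw [List.cons_append]
    by_cases hc : c = s
    · subst hc
      rw [pcs_cons_s, pcs_cons_s, ih, List.cons_append]
    · rw [pcs, pcs, if_neg hc, if_neg hc, ih]
      cases h : pcs A with
      | nil => exact absurd h (pcs_ne_nil A)
      | cons p ps => simp

theorem pcs_free {A : List Ch} (h : s ∉ A) : pcs A = [A] := by
  induction A with
  | nil => simp [pcs]
  | cons c A ih =>
    rw [List.mem_cons, not_or] at h
    rw [pcs, if_neg (Ne.symm h.1), ih h.2]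

theorem pcs_sep {l : List (List Ch)} (hl : ∀ c ∈ l, s ∉ c) (A B : List Ch) :
    pcs (A ++ sep l ++ B) = pcs A ++ l ++ pcs B := by
  induction l generalizing A with
  | nil =>
    simp only [sep, List.flatMap_nil, List.nil_append, List.append_assoc, List.singleton_append]
    rw [pcs_append_s]
  | cons c l ih =>
    have h1 : A ++ sep (c :: l) ++ B = A ++ s :: (c ++ sep l ++ B) := by
      simp [sep, List.append_assoc]
    rw [h1, pcs_append_s, ih (fun x hx => hl x (List.mem_cons_of_mem _ hx)) c,
      pcs_free (hl c List.mem_cons_self)]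
    simp

/-- letters of the entries -/
theorem ents_free {e : Ent} (he : e ∈ ents) :
    e.c0 ≠ s ∧ e.c1 ≠ s ∧ e.c2 ≠ s ∧ e.c3 ≠ s ∧ s ∉ e.c4 := by
  obtain ⟨c, hc, t, ht, d, hd, rfl⟩ := mem_ents.1 he
  refine ⟨?_, ?_, ?_, ?_, ?_⟩
  · obtain ⟨e, h | h | h⟩ := ctx_cases hc <;> subst h <;> simp [bit_ne_s]
  · obtain ⟨e, h | h | h⟩ := ctx_cases hc <;> subst h <;> simp [bit_ne_s]
  · obtain ⟨e, h | h | h⟩ := ctx_cases hc <;> subst h <;> simp [bit_ne_s]
  · obtain ⟨e, h | h | h⟩ := ctx_cases hc <;> subst h <;> simp [bit_ne_s]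
  · generalize c.2.2.2.2 = n at ht
    cases n <;> simp [tails] at ht
    · rcases ht with rfl | rfl | rfl <;> simp [bit]
    · rcases ht with rfl | rfl | rfl | rfl | rfl | rfl <;> simp [bit]

theorem comps_free {e : Ent} (he : e ∈ ents) (hd : e.d ≠ s) : ∀ c ∈ comps e, s ∉ c := by
  obtain ⟨h0, h1, h2, h3, h4⟩ := ents_free he
  intro c hc
  simp only [comps, List.mem_cons, List.not_mem_nil, or_false] at hc
  rcases hc with rfl | rfl | rfl | rfl | rfl | rfl
  · simpa using Ne.symm h0
  · simpa using Ne.symm h1
  · simpa using Ne.symm h2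
  · simpa using Ne.symm h3
  · exact h4
  · simpa using Ne.symm hd

/-- pieces of an entry -/
def pent (e : Ent) : List (List Ch) :=
  if e.d = s then [[], [], [e.c0], [u, e.c1], [u, e.c2], [u, e.c3], e.c4, [], []]
  else [[], [], [e.c0], [u, e.c1], [u, e.c2], [u, e.c3], e.c4, [e.d]]

theorem pcs_entry {e : Ent} (he : e ∈ ents) (A B : List Ch) :
    pcs (A ++ (s :: sep (comps e)) ++ B) = pcs A ++ (pent e).tail ++ pcs B := by
  by_cases hd : e.d = s
  · obtain ⟨h0, h1, h2, h3, h4⟩ := ents_free he
    have hfree : ∀ c ∈ [[e.c0], [u, e.c1], [u, e.c2], [u, e.c3], e.c4], s ∉ c := by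
      intro c hc
      simp only [List.mem_cons, List.not_mem_nil, or_false] at hc
      rcases hc with rfl | rfl | rfl | rfl | rfl
      · simpa using Ne.symm h0
      · simpa using Ne.symm h1
      · simpa using Ne.symm h2
      · simpa using Ne.symm h3
      · exact h4
    have e1 : A ++ (s :: sep (comps e)) ++ B =
        A ++ s :: ([] ++ sep [[e.c0], [u, e.c1], [u, e.c2], [u, e.c3], e.c4] ++ (s :: s :: B)) := by
      simp [sep, comps, hd]
    rw [e1, pcs_append_s, pcs_sep hfree, pcs_cons_s, pcs_cons_s]
    simp [pent, hd, pcs]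
  · have e1 : A ++ (s :: sep (comps e)) ++ B = A ++ s :: ([] ++ sep (comps e) ++ B) := by simp
    rw [e1, pcs_append_s, pcs_sep (comps_free he hd)]
    simp [pent, hd, pcs, comps]

theorem pcs_dict : ∀ es : List Ent, (∀ e ∈ es, e ∈ ents) →
    pcs (es.flatMap (fun e => s :: sep (comps e)) ++ [a]) = es.flatMap pent ++ [[a]] := by
  intro es
  induction es with
  | nil => intro _; simp [pcs]
  | cons e es ih =>
    intro h
    have e1 : (e :: es).flatMap (fun e => s :: sep (comps e)) ++ [a] =
        [] ++ (s :: sep (comps e)) ++ (es.flatMap (fun e => s :: sep (comps e)) ++ [a]) := by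
      simp
    rw [e1, pcs_entry (h e List.mem_cons_self), ih (fun x hx => h x (List.mem_cons_of_mem _ hx))]
    have e2 : pcs ([] : List Ch) ++ (pent e).tail = pent e := by
      unfold pent
      split_ifs <;> simp [pcs]
    rw [e2]
    simp

/-- six consecutive nonempty pieces in the dictionary that are not the last ones form an entry -/
theorem parse_pieces {l0 l1 l2 l3 l4 l5 : List Ch} (n0 : l0 ≠ []) (n1 : l1 ≠ []) (n2 : l2 ≠ [])
    (n3 : l3 ≠ []) (n4 : l4 ≠ []) (n5 : l5 ≠ []) : ∀ (es : List Ent) (P S : List (List Ch)),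
    S ≠ [] → P ++ [l0, l1, l2, l3, l4, l5] ++ S = es.flatMap pent ++ [[a]] →
    ∃ e ∈ es, comps e = [l0, l1, l2, l3, l4, l5] := by
  intro es
  induction es with
  | nil =>
    intro P S _ h
    have := congrArg List.length h
    simp at this
    omega
  | cons e es ih =>
    intro P S hS h
    simp only [List.flatMap_cons, List.append_assoc] at h
    -- the next piece after the group
    have hnext : (∃ rest, es.flatMap pent ++ [[a]] = [] :: rest) ∨ es = [] := by
      cases es with
      | nil => right; rfl
      | cons f fs =>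
        left
        simp only [List.flatMap_cons, pent]
        split_ifs <;> simp
    obtain ⟨s0, S', rfl⟩ : ∃ s0 S', S = s0 :: S' := by
      cases S with
      | nil => exact absurd rfl hS
      | cons x y => exact ⟨x, y, rfl⟩
    by_cases hd : e.d = s
    · have hp : pent e = [[], [], [e.c0], [u, e.c1], [u, e.c2], [u, e.c3], e.c4, [], []] := by
        simp [pent, hd]
      rw [hp] at h
      rcases P with _ | ⟨p0, P⟩
      · simp at h; exact absurd h.1 n0
      rcases P with _ | ⟨p1, P⟩
      · simp at h; exact absurd h.2.1 n0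
      rcases P with _ | ⟨p2, P⟩
      · simp at h
        exact absurd h.2.2.2.2.2.2.2.1 n5
      rcases P with _ | ⟨p3, P⟩
      · simp at h
        exact absurd h.2.2.2.2.2.2.2.1 n4
      rcases P with _ | ⟨p4, P⟩
      · simp at h
        exact absurd h.2.2.2.2.2.2.2.1 n3
      rcases P with _ | ⟨p5, P⟩
      · simp at h
        exact absurd h.2.2.2.2.2.2.2.1 n2
      rcases P with _ | ⟨p6, P⟩
      · simp at h
        exact absurd h.2.2.2.2.2.2.2.1 n1
      rcases P with _ | ⟨p7, P⟩
      · simp at h
        exact absurd h.2.2.2.2.2.2.2.1 n0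
      rcases P with _ | ⟨p8, P⟩
      · simp at h
        exact absurd h.2.2.2.2.2.2.2.2.1 n0
      · simp only [List.cons_append, List.cons.injEq, List.nil_append] at h
        obtain ⟨_, _, _, _, _, _, _, _, _, h⟩ := h
        obtain ⟨f, hf, hfc⟩ := ih P (s0 :: S') (by simp) (by simpa using h)
        exact ⟨f, List.mem_cons_of_mem _ hf, hfc⟩
    · have hp : pent e = [[], [], [e.c0], [u, e.c1], [u, e.c2], [u, e.c3], e.c4, [e.d]] := by
        simp [pent, hd]
      rw [hp] at h
      rcases P with _ | ⟨p0, P⟩
      · simp at h; exact absurd h.1 n0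
      rcases P with _ | ⟨p1, P⟩
      · simp at h; exact absurd h.2.1 n0
      rcases P with _ | ⟨p2, P⟩
      · simp only [List.cons_append, List.cons.injEq, List.nil_append] at h
        obtain ⟨_, _, g0, g1, g2, g3, g4, g5, _⟩ := h
        exact ⟨e, List.mem_cons_self, by simp [comps, g0, g1, g2, g3, g4, g5]⟩
      -- the group is left in the middle: the next piece is empty, or nothing follows
      rcases hnext with ⟨rest, hrest⟩ | hes
      · rw [hrest] at h
        rcases P with _ | ⟨p3, P⟩
        · simp at h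
          exact absurd h.2.2.2.2.2.2.2.2.1 n5
        rcases P with _ | ⟨p4, P⟩
        · simp at h
          exact absurd h.2.2.2.2.2.2.2.2.1 n4
        rcases P with _ | ⟨p5, P⟩
        · simp at h
          exact absurd h.2.2.2.2.2.2.2.2.1 n3
        rcases P with _ | ⟨p6, P⟩
        · simp at h
          exact absurd h.2.2.2.2.2.2.2.2.1 n2
        rcases P with _ | ⟨p7, P⟩
        · simp at h
          exact absurd h.2.2.2.2.2.2.2.2.1 n1
        · simp only [List.cons_append, List.cons.injEq, List.nil_append] at h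
          obtain ⟨_, _, _, _, _, _, _, _, h⟩ := h
          rw [← hrest] at h
          obtain ⟨f, hf, hfc⟩ := ih P (s0 :: S') (by simp) (by simpa using h)
          exact ⟨f, List.mem_cons_of_mem _ hf, hfc⟩
      · subst hes
        have := congrArg List.length h
        simp at this
        omega

theorem parse_dict {l0 l1 l2 l3 l4 l5 : List Ch} (n0 : l0 ≠ []) (n1 : l1 ≠ []) (n2 : l2 ≠ [])
    (n3 : l3 ≠ []) (n4 : l4 ≠ []) (n5 : l5 ≠ [])
    (hf : ∀ c ∈ [l0, l1, l2, l3, l4, l5], s ∉ c) {A B : List Ch}
    (h : MR = A ++ sep [l0, l1, l2, l3, l4, l5] ++ B) :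
    ∃ e ∈ ents, comps e = [l0, l1, l2, l3, l4, l5] := by
  have h1 := congrArg pcs h
  rw [MR, pcs_dict ents (fun e he => he), pcs_sep hf] at h1
  exact parse_pieces n0 n1 n2 n3 n4 n5 ents (pcs A) (pcs B) (pcs_ne_nil B) h1.symm

theorem MR_last : MR = ents.flatMap (fun e => s :: sep (comps e)) ++ [a] := rfl

theorem MR_head : ∃ M, MR = s :: M := by
  have h : ents ≠ [] := by
    intro h0
    have hmem := mem_ents.2 ⟨_, ctx_mem_a false, ([], bit false), by simp [tails], a,
      by simp [bit], rfl⟩
    rw [h0] at hmem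
    simp at hmem
  obtain ⟨e, es, he⟩ := List.exists_cons_of_ne_nil h
  refine ⟨sep (comps e) ++ (es.flatMap (fun e => s :: sep (comps e)) ++ [a]), ?_⟩
  rw [MR, he]
  simp

theorem K_eq : K = 2 * MR.length + 60 := rfl

theorem Mid_eq : Mid = MR.reverse ++ Tr ++ MR := rfl

theorem U_eq (m n : ℕ) : U m n =
    (seg R 0 m).reverse ++ List.replicate K s ++ Mid ++ List.replicate K s ++ seg R 0 n := rfl

theorem Tr_length : Tr.length = 15 := rfl

theorem Mid_length : Mid.length = 2 * MR.length + 15 := by
  rw [Mid_eq, List.length_append, List.length_append, List.length_reverse, Tr_length]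
  omega

attribute [irreducible] MR K Mid U


end Pool.Agent.Lib.MP_2432f5_co
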