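import Mathlib

/-! Patterns with constants, encountering, maximal pattern-free words. -/

namespace Pool.Agent.Lib.MP_2432f5_co

/-- Value of a letter of a pattern under `h`: a letter `Sum.inl c`, where `c` lies in the
alphabet `A` of the words, is a constant; a letter `Sum.inr x` is a variable. -/
def image {A V : Type} (h : V → List A) : A ⊕ V → List A
  | Sum.inl c => [c]
  | Sum.inr x => h x

/-- The word `w` over `A` encounters the pattern `p`: some non-erasing morphism that fixes the
constants maps `p` to a factor (block of consecutive letters) of `w`. -/
def Encounters {A V : Type} (p : List (A ⊕ V)) (w : List A) : Prop :=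
  ∃ h : V → List A, (∀ x, h x ≠ []) ∧ (p.flatMap (image h)) <:+: w

/-- The word `w` is `p`-free. -/
def PatternFree {A V : Type} (p : List (A ⊕ V)) (w : List A) : Prop := ¬ Encounters p w

/-- The word `w` is maximal `p`-free: it is `p`-free and every word `c w d` with letters `c`, `d`
encounters `p`. -/
def MaximalFree {A V : Type} (p : List (A ⊕ V)) (w : List A) : Prop :=
  PatternFree p w ∧ ∀ c d : A, Encounters p (c :: (w ++ [d]))

end Pool.Agent.Lib.MP_2432f5_co
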