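import Pool.Agent.Lib.MP_2432f5_co.Main

/-! Every wrong letter next to the dictionary word creates the pattern. -/

namespace Pool.Agent.Lib.MP_2432f5_co

open Ch

def Enc (w : List Ch) : Prop := ∃ h : ℕ → List Ch, (∀ x, h x ≠ []) ∧ pat.flatMap h <:+: w

theorem Enc.mono {w w' : List Ch} (h : Enc w) (hw : w <:+: w') : Enc w' := by
  obtain ⟨g, hg, hi⟩ := h
  exact ⟨g, hg, hi.trans hw⟩

def sg (x : ℕ) : ℕ :=
  if 1 ≤ x ∧ x ≤ 7 then x + 10 else if 11 ≤ x ∧ x ≤ 17 then x - 10 else if x = 21 then 25
  else if x = 25 then 21 else if x = 22 then 24 else if x = 24 then 22 else x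

theorem pat_reverse : pat.reverse = pat.map sg := by
  have h1 : pQ.reverse = pQ'.reverse.map sg := by decide
  have h2 : pF.reverse = pF'.reverse.map sg := by decide
  have h3 : pF' = pF.map sg := by decide
  have h4 : pQ' = pQ.map sg := by decide
  have h0 : sg 0 = 0 := by decide
  have h21 : sg 21 = 25 := by decide
  have h22 : sg 22 = 24 := by decide
  have h23 : sg 23 = 23 := by decide
  have h24 : sg 24 = 22 := by decide
  have h25 : sg 25 = 21 := by decide
  simp only [pat, List.reverse_append, List.map_append, List.reverse_replicate,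
    List.map_replicate, List.reverse_reverse, List.reverse_singleton, List.map_cons, List.map_nil,
    h0, h21, h22, h23, h24, h25, List.append_assoc]
  rw [h1, h2, ← h3, ← h4]

theorem Enc.reverse {w : List Ch} (h : Enc w) : Enc w.reverse := by
  obtain ⟨g, hg, hi⟩ := h
  refine ⟨fun x => (g (sg x)).reverse, fun x => by simpa using hg (sg x), ?_⟩
  have h1 : pat.flatMap (fun x => (g (sg x)).reverse) = (pat.flatMap g).reverse := by
    rw [List.reverse_flatMap, pat_reverse, List.flatMap_map]
    rfl
  rw [h1, List.reverse_infix]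
  exact hi

theorem seg_R_T (i k : ℕ) : seg R (9 + i) k = seg T i k := by
  unfold seg
  apply List.map_congr_left
  intro t _
  rw [show 9 + i + t = (i + t) + 9 by ring, R_add]

theorem ent_c4_ne {e : Ent} (he : e ∈ ents) : e.c4 ≠ [] := by
  obtain ⟨c, hc, t, ht, d, hd, rfl⟩ := mem_ents.1 he
  simp

theorem wrong_enc {n : ℕ} (hn : 21 ≤ n) {d : Ch} (hd : d ≠ R n) : Enc (U 21 n ++ [d]) := by
  obtain ⟨n', rfl⟩ : ∃ n', n = 9 + n' := ⟨n - 9, by omega⟩
  have hd' : d ≠ T n' := by
    rw [show 9 + n' = n' + 9 by ring, R_add] at hd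
    exact hd
  obtain ⟨E, hE, V, hV, i, hsp, hi⟩ := wrong_spells (n := n') (by omega) hd'
  obtain ⟨l1, l2, hl⟩ := List.append_of_mem hE
  set y1 : List Ch := l1.flatMap (fun e => s :: sep (comps e)) with hy1
  set y2 : List Ch := l2.flatMap (fun e => s :: sep (comps e)) with hy2
  have hMR : MR = y1 ++ (s :: sep (comps E)) ++ (y2 ++ [a]) := by
    rw [MR_last, hl]
    simp [hy1, hy2]
  set g : ℕ → List Ch := fun x => match x with
    | 0 => [s]
    | 1 => [E.c0]
    | 2 => [u, E.c1]
    | 3 => [u, E.c2]
    | 4 => [u, E.c3]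
    | 5 => E.c4
    | 6 => V
    | 7 => [E.d]
    | 17 => [u]
    | 22 => MR.reverse
    | 23 => [u, s] ++ y1 ++ [s]
    | 24 => y2 ++ [a]
    | 25 => seg R 0 (9 + i)
    | _ => [a] with hg
  have hMRne : MR ≠ [] := by
    rw [MR_last]; simp
  refine ⟨g, ?_, (seg R 11 10).reverse, [], ?_⟩
  · intro x
    simp only [hg]
    split
    · simp
    · simp
    · simp
    · simp
    · simp
    · exact ent_c4_ne hE
    · exact hV
    · simp
    · simp
    · simpa using hMRne
    · simp
    · simp
    · exact seg_ne_nil (by omega)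
    · simp
  · have hK : (List.replicate K [s]).flatten = List.replicate K s := by
      simp
    have hleft : (seg R 0 21).reverse = (seg R 11 10).reverse ++ [u, a, a, a, a, a, a, a, a, a] ++
        [a] := by
      have h1 : seg R 0 21 = seg R 0 10 ++ (seg R 10 1 ++ seg R 11 10) := by
        rw [show (21 : ℕ) = 10 + (1 + 10) by norm_num, seg_add, seg_add]
      have h2 : seg R 0 10 = List.replicate 10 a := rfl
      have h3 : seg R 10 1 = [u] := by
        rw [seg_one, show 10 = 1 + 9 by norm_num, R_add, T_other (by norm_num)]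
      rw [h1, h2, h3]
      simp [List.replicate]
    have hright : seg R 0 (9 + n') ++ [d] = seg R 0 (9 + i) ++ spell E V := by
      have hs : seg R 0 (9 + n') = seg R 0 (9 + i) ++ seg R (9 + i) (n' - i) := by
        have h1 : 9 + n' = (9 + i) + (n' - i) := by omega
        rw [h1, seg_add, Nat.zero_add]
      rw [hs, hsp, seg_R_T]
      simp only [List.append_assoc]
    have hTr : Tr = [s, u, s, a, s, a, s, a, s, a, s, a, s] ++ [u, s] := rfl
    have hmid : Mid = MR.reverse ++ [s, u, s, a, s, a, s, a, s, a, s, a, s] ++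
        ([u, s] ++ y1 ++ [s]) ++ sep (comps E) ++ (y2 ++ [a]) := by
      rw [Mid_eq, hTr]
      conv_lhs => rw [hMR]
      conv_rhs => rw [hMR]
      simp only [List.append_assoc, List.cons_append, List.nil_append]
    have eP : pat.flatMap g = [u, a, a, a, a, a, a, a, a, a] ++ [a] ++ List.replicate K s ++
        MR.reverse ++ [s, u, s, a, s, a, s, a, s, a, s, a, s] ++ ([u, s] ++ y1 ++ [s]) ++
        sep (comps E) ++ (y2 ++ [a]) ++ List.replicate K s ++ seg R 0 (9 + i) ++ spell E V := by
      rw [pat_flatMap]
      have e0 : g 0 = [s] := rfl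
      have e1 : pQ'.reverse.flatMap g = [u, a, a, a, a, a, a, a, a, a] := rfl
      have e2 : pF'.reverse.flatMap g = [s, u, s, a, s, a, s, a, s, a, s, a, s] := rfl
      have e3 : pF.flatMap g = sep (comps E) := by
        simp [pF, sep, comps, hg]
      have e4 : pQ.flatMap g = spell E V := by
        simp [pQ, spell, hg]
      have e5 : g 21 = [a] := rfl
      have e6 : g 22 = MR.reverse := rfl
      have e7 : g 23 = [u, s] ++ y1 ++ [s] := rfl
      have e8 : g 24 = y2 ++ [a] := rfl
      have e9 : g 25 = seg R 0 (9 + i) := rfl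
      rw [e0, e1, e2, e3, e4, e5, e6, e7, e8, e9, hK]
    have eU : U 21 (9 + n') ++ [d] = (seg R 11 10).reverse ++ [u, a, a, a, a, a, a, a, a, a] ++
        [a] ++ List.replicate K s ++ Mid ++ List.replicate K s ++
        (seg R 0 (9 + i) ++ spell E V) := by
      rw [U_eq, List.append_assoc _ (seg R 0 (9 + n')), hright, hleft]
    rw [eP, eU, hmid]
    simp only [List.append_assoc, List.append_nil]

theorem U_succ_right (m n : ℕ) : U m (n + 1) = U m n ++ [R n] := by
  rw [U_eq, U_eq, seg_add, seg_one, Nat.zero_add]
  simp only [List.append_assoc]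

theorem U_succ_left (m n : ℕ) : U (m + 1) n = R m :: U m n := by
  rw [U_eq, U_eq, seg_add, seg_one, Nat.zero_add, List.reverse_append]
  simp only [List.append_assoc, List.reverse_singleton, List.cons_append, List.nil_append]

theorem force_right (z' : List Ch) : ¬ Enc (U 21 21 ++ z') →
    U 21 21 ++ z' = U 21 (21 + z'.length) := by
  induction z' using List.reverseRecOn with
  | nil => intro _; simp
  | append_singleton z' d ih =>
    intro h
    have h1 : ¬ Enc (U 21 21 ++ z') := by
      intro hc
      exact h (hc.mono ⟨[], [d], by simp⟩)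
    have h2 := ih h1
    have h3 : d = R (21 + z'.length) := by
      by_contra hc
      apply h
      rw [← List.append_assoc, h2]
      exact wrong_enc (by omega) hc
    rw [← List.append_assoc, h2, List.length_append, List.length_singleton, ← Nat.add_assoc,
      U_succ_right, h3]

theorem force {E z' : List Ch} (h : ¬ Enc (E ++ U 21 21 ++ z')) :
    E ++ U 21 21 ++ z' = U (21 + E.length) (21 + z'.length) := by
  have h1 : ¬ Enc (U 21 21 ++ z') := by
    intro hc
    exact h (hc.mono ⟨E, [], by simp⟩)
  have h2 : ¬ Enc (U 21 21 ++ E.reverse) := by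
    intro hc
    apply h
    have h3 := hc.reverse
    rw [List.reverse_append, List.reverse_reverse, U_reverse] at h3
    exact h3.mono ⟨[], z', by simp⟩
  have h4 := force_right _ h1
  have h5 := congrArg List.reverse (force_right _ h2)
  rw [List.reverse_append, List.reverse_reverse, U_reverse, U_reverse, List.length_reverse] at h5
  have h6 : E ++ (seg R 0 21).reverse = (seg R 0 (21 + E.length)).reverse := by
    rw [U_eq, U_eq] at h5
    simp only [List.append_assoc] at h5
    rw [← List.append_assoc] at h5
    exact List.append_cancel_right h5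
  rw [List.append_assoc, h4, U_eq, U_eq]
  simp only [List.append_assoc]
  rw [← List.append_assoc E, h6]

end Pool.Agent.Lib.MP_2432f5_co
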