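import Pool.Agent.Lib.MP_2432f5_co.Avoid

/-! The words `U m n` avoid the pattern, and nothing else around the dictionary does. -/

namespace Pool.Agent.Lib.MP_2432f5_co

open Ch

theorem sep_no_ss {l : List (List Ch)} (hn : ∀ c ∈ l, c ≠ []) (hf : ∀ c ∈ l, s ∉ c) :
    ¬ [s, s] <:+: sep l := by
  intro h
  obtain ⟨A, B, hAB⟩ := h
  have h1 := congrArg pcs hAB
  have e1 : A ++ [s, s] ++ B = A ++ s :: s :: B := by simp
  have e2 : sep l = [] ++ sep l ++ [] := by simp
  rw [e1, pcs_append_s, pcs_cons_s, e2, pcs_sep hf] at h1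
  -- the empty piece between the two letters is one of `l`
  have e3 : pcs ([] : List Ch) = [[]] := rfl
  rw [e3] at h1
  obtain ⟨x, xs, hx⟩ := List.exists_cons_of_ne_nil (pcs_ne_nil A)
  obtain ⟨ys, y, hy⟩ : ∃ ys y, pcs B = ys ++ [y] := by
    rcases (pcs B).eq_nil_or_concat with h0 | ⟨ys, y, h0⟩
    · exact absurd h0 (pcs_ne_nil B)
    · exact ⟨ys, y, by simpa using h0⟩
  rw [hx, hy] at h1
  have h2 : (x :: (xs ++ [] :: ys)) ++ [y] = ([] :: l) ++ [[]] := by
    simpa using h1
  have h3 := List.append_inj_left' h2 rfl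
  have h4 : xs ++ [] :: ys = l := (List.cons.inj h3).2
  exact hn [] (by rw [← h4]; simp) rfl

theorem cross {G H P F S : List Ch} (h : G ++ ([s, s] ++ H) = P ++ (F ++ S))
    (hPG : P.length ≤ G.length) (hF : ¬ [s, s] <:+: F) : P.length + F.length ≤ G.length + 1 := by
  rcases List.append_eq_append_iff.1 h with ⟨as, ha1, ha2⟩ | ⟨bs, hb1, hb2⟩
  · -- P = G ++ as
    have has : as = [] := by
      have := congrArg List.length ha1
      rw [List.length_append] at this
      exact List.length_eq_zero_iff.1 (by omega)
    subst has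
    rw [List.nil_append] at ha2
    rcases List.append_eq_append_iff.1 ha2 with ⟨cs, hc1, _⟩ | ⟨ds, hd1, _⟩
    · exact absurd ⟨[], cs, by rw [hc1]; simp⟩ hF
    · rcases ds with _ | ⟨d, ds⟩
      · exact absurd ⟨[], [], by rw [List.append_nil] at hd1; simp [hd1]⟩ hF
      · have := congrArg List.length hd1
        simp at this
        have h1 := congrArg List.length ha1
        simp at h1
        omega
  · -- G = P ++ bs
    have hb3 : (bs ++ [s, s]) ++ H = F ++ S := by rw [hb2]; simp only [List.append_assoc]
    rcases List.append_eq_append_iff.1 hb3 with ⟨cs, hc1, _⟩ | ⟨ds, hd1, _⟩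
    · exact absurd ⟨bs, cs, by rw [hc1]⟩ hF
    · rcases ds with _ | ⟨d, ds⟩
      · exact absurd ⟨bs, [], by rw [List.append_nil] at hd1; simp [hd1]⟩ hF
      · have h1 := congrArg List.length hd1
        have h2 := congrArg List.length hb1
        simp at h1 h2
        omega

theorem sep_reverse (l : List (List Ch)) :
    (sep l).reverse = sep ((l.map List.reverse).reverse) := by
  induction l with
  | nil => simp [sep]
  | cons c l ih =>
    have h1 : sep (c :: l) = s :: (c ++ sep l) := by simp [sep]
    rw [h1, List.reverse_cons, List.reverse_append, ih]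
    simp [sep]

/-- right-hand case -/
theorem bad_right {n : ℕ} {A B : List Ch} {c0 c1 c2 c3 c4 d V : List Ch}
    (h0 : c0 ≠ []) (h1 : c1 ≠ []) (h2 : c2 ≠ []) (h3 : c3 ≠ []) (h4 : c4 ≠ []) (hd : d ≠ [])
    (hV : V ≠ []) (hf : ∀ c ∈ [c0, c1, c2, c3, c4, d], s ∉ c)
    (hM : MR = A ++ sep [c0, c1, c2, c3, c4, d] ++ B)
    (hQ : c0 ++ V ++ c1 ++ V ++ c2 ++ V ++ c3 ++ V ++ c4 ++ d <:+: seg R 0 n) : False := by
  obtain ⟨e, he, hc⟩ := parse_dict h0 h1 h2 h3 h4 hd hf hM
  simp only [comps, List.cons.injEq, and_true] at hc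
  obtain ⟨rfl, rfl, rfl, rfl, rfl, rfl⟩ := hc
  obtain ⟨j, _, hocc⟩ := occ_of_infix hQ
  exact truth he hV j hocc

theorem count_sep {l : List (List Ch)} : l.length + 1 ≤ (sep l).count s := by
  induction l with
  | nil => simp [sep]
  | cons c l ih =>
    have h1 : sep (c :: l) = s :: (c ++ sep l) := by simp [sep]
    rw [h1, List.count_cons_self, List.count_append]
    simp
    omega

theorem avoids {m n : ℕ} (hm : 10 ≤ m) (hn : 10 ≤ n) {h : ℕ → List Ch} (hne : ∀ x, h x ≠ []) :
    ¬ pat.flatMap h <:+: U m n := by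
  rintro ⟨A, B, hAB⟩
  rw [pat_flatMap] at hAB
  have h1 : (A ++ pQ'.reverse.flatMap h ++ h 21) ++ (List.replicate K (h 0)).flatten ++
      (h 22 ++ pF'.reverse.flatMap h ++ h 23 ++ pF.flatMap h ++ h 24) ++
      (List.replicate K (h 0)).flatten ++ (h 25 ++ pQ.flatMap h ++ B) = U m n := by
    rw [← hAB]; simp only [List.append_assoc]
  obtain ⟨hX, hL, hW, hR⟩ := blocks hm hn (hne 0) h1
  -- the spelled words
  have eQ : pQ.flatMap h = h 1 ++ h 6 ++ h 2 ++ h 6 ++ h 3 ++ h 6 ++ h 4 ++ h 6 ++ h 5 ++ h 7 := by
    simp [pQ]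
  have eF : pF.flatMap h = sep [h 1, h 2, h 3, h 4, h 5, h 7] := by
    simp [pF, sep, hX]
  have eQ' : (pQ'.reverse.flatMap h).reverse = (h 11).reverse ++ (h 16).reverse ++
      (h 12).reverse ++ (h 16).reverse ++ (h 13).reverse ++ (h 16).reverse ++ (h 14).reverse ++
      (h 16).reverse ++ (h 15).reverse ++ (h 17).reverse := by
    simp [pQ']
  have eF' : (pF'.reverse.flatMap h).reverse = sep [(h 11).reverse, (h 12).reverse,
      (h 13).reverse, (h 14).reverse, (h 15).reverse, (h 17).reverse] := by
    simp [pF', sep, hX]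
  -- the parts of the right and left words have no `s`
  have hfR : s ∉ pQ.flatMap h := by
    intro hc
    apply seg_R_no_s 0 n
    rw [← hR]
    simp only [List.mem_append]
    exact Or.inl (Or.inr hc)
  have hfL : s ∉ pQ'.reverse.flatMap h := by
    intro hc
    apply seg_R_no_s 0 m
    rw [← List.mem_reverse, ← hL]
    simp only [List.mem_append]
    exact Or.inl (Or.inr hc)
  have hfree : ∀ c ∈ [h 1, h 2, h 3, h 4, h 5, h 7], s ∉ c := by
    rw [eQ] at hfR
    simp only [List.mem_append, not_or] at hfR
    intro c hc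
    simp only [List.mem_cons, List.not_mem_nil, or_false] at hc
    rcases hc with rfl | rfl | rfl | rfl | rfl | rfl <;> tauto
  have hfree' : ∀ c ∈ [(h 11).reverse, (h 12).reverse,
      (h 13).reverse, (h 14).reverse, (h 15).reverse, (h 17).reverse], s ∉ c := by
    rw [← List.mem_reverse, eQ'] at hfL
    simp only [List.mem_append, not_or] at hfL
    intro c hc
    simp only [List.mem_cons, List.not_mem_nil, or_false] at hc
    rcases hc with rfl | rfl | rfl | rfl | rfl | rfl <;> tauto
  have hrne : ∀ x, (h x).reverse ≠ [] := fun x => by simpa using hne x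
  have hnn : ∀ c ∈ [h 1, h 2, h 3, h 4, h 5, h 7], c ≠ [] := by
    intro c hc
    simp only [List.mem_cons, List.not_mem_nil, or_false] at hc
    rcases hc with rfl | rfl | rfl | rfl | rfl | rfl <;> exact hne _
  have hnn' : ∀ c ∈ [(h 11).reverse, (h 12).reverse,
      (h 13).reverse, (h 14).reverse, (h 15).reverse, (h 17).reverse], c ≠ [] := by
    intro c hc
    simp only [List.mem_cons, List.not_mem_nil, or_false] at hc
    rcases hc with rfl | rfl | rfl | rfl | rfl | rfl <;> exact hrne _
  obtain ⟨M, hM⟩ := MR_head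
  obtain ⟨F, hF⟩ : ∃ F, pF.flatMap h = F := ⟨_, rfl⟩
  obtain ⟨F', hF'⟩ : ∃ F', pF'.reverse.flatMap h = F' := ⟨_, rfl⟩
  have hMidEq : (MR.reverse ++ Tr) ++ MR = (h 22 ++ F' ++ h 23) ++ (F ++ h 24) := by
    rw [← Mid_eq, ← hW, ← hF, ← hF']
    simp only [List.append_assoc]
  have hMidEq' : MR.reverse ++ (Tr ++ MR) = (h 22 ++ F') ++ (h 23 ++ F ++ h 24) := by
    rw [← List.append_assoc, hMidEq]
    simp only [List.append_assoc]
  -- case (a): the right entry fragment starts in the right dictionary
  by_cases hca : (MR.reverse ++ Tr).length ≤ (h 22 ++ F' ++ h 23).length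
  · rcases List.append_eq_append_iff.1 hMidEq with ⟨as, ha1, ha2⟩ | ⟨bs, hb1, hb2⟩
    · refine bad_right (hne 1) (hne 2) (hne 3) (hne 4) (hne 5) (hne 7) (hne 6) hfree
        (A := as) (B := h 24) (n := n) ?_ ?_
      · rw [ha2, ← eF, hF]
        simp only [List.append_assoc]
      · rw [← eQ, ← hR]
        exact ⟨h 25, B, by simp only [List.append_assoc]⟩
    · have hbs : bs = [] := by
        have := congrArg List.length hb1
        simp only [List.length_append] at this hca
        exact List.length_eq_zero_iff.1 (by omega)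
      subst hbs
      refine bad_right (hne 1) (hne 2) (hne 3) (hne 4) (hne 5) (hne 7) (hne 6) hfree
        (A := []) (B := h 24) (n := n) ?_ ?_
      · rw [List.nil_append] at hb2
        rw [← hb2, ← eF, hF]
        simp only [List.nil_append]
      · rw [← eQ, ← hR]
        exact ⟨h 25, B, by simp only [List.append_assoc]⟩
  -- case (b): the left entry fragment ends in the left dictionary
  by_cases hcb : (h 22 ++ F').length ≤ MR.reverse.length
  · have hb : ∃ bs, MR.reverse = (h 22 ++ F') ++ bs := by
      rcases List.append_eq_append_iff.1 hMidEq' with ⟨as, ha1, ha2⟩ | ⟨bs, hb1, hb2⟩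
      · have has : as = [] := by
          have := congrArg List.length ha1
          simp only [List.length_append] at this hcb
          exact List.length_eq_zero_iff.1 (by omega)
        subst has
        exact ⟨[], by rw [ha1]; simp⟩
      · exact ⟨bs, hb1⟩
    obtain ⟨bs, hbs⟩ := hb
    refine bad_right (hrne 11) (hrne 12) (hrne 13) (hrne 14) (hrne 15) (hrne 17) (hrne 16) hfree'
        (A := bs.reverse) (B := (h 22).reverse) (n := m) ?_ ?_
    · rw [← eF', hF', ← List.reverse_reverse MR, hbs]
      simp only [List.reverse_append, List.append_assoc]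
    · rw [← eQ', ← List.reverse_reverse (seg R 0 m), ← hL, List.reverse_infix]
      exact ⟨A, h 21, rfl⟩
  -- case (c): both fragments are in the trivial entry
  exfalso
  have hTr : ∃ G, MR.reverse ++ Tr = G ++ [s] :=
    ⟨MR.reverse ++ [s, u, s, a, s, a, s, a, s, a, s, a, s, u], by simp [Tr]⟩
  obtain ⟨G, hG⟩ := hTr
  have c1 : (h 22 ++ F' ++ h 23).length + F.length ≤ G.length + 1 := by
    apply cross (H := M) (S := h 24)
    · rw [← hMidEq, hG, hM]
      simp only [List.append_assoc, List.cons_append, List.nil_append]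
    · rw [hG] at hca
      simp only [List.length_append, List.length_cons, List.length_nil] at hca ⊢
      omega
    · rw [← hF, eF]
      exact sep_no_ss hnn hfree
  have c2 : MR.reverse.length ≤ (h 22).length := by
    by_contra hcon
    have hMr : MR.reverse = M.reverse ++ [s] := by rw [hM]; simp
    have c3 : (h 22).length + F'.length ≤ M.reverse.length + 1 := by
      apply cross (H := [u, s, a, s, a, s, a, s, a, s, a, s, u, s] ++ MR) (S := h 23 ++ F ++ h 24)
      · have : M.reverse ++ ([s, s] ++ ([u, s, a, s, a, s, a, s, a, s, a, s, u, s] ++ MR)) =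
            MR.reverse ++ (Tr ++ MR) := by
          rw [hMr]; simp [Tr]
        rw [this, hMidEq']
        simp only [List.append_assoc]
      · rw [hMr] at hcon
        simp only [List.length_append, List.length_cons, List.length_nil] at hcon
        omega
      · rw [← hF']
        have hns := sep_no_ss hnn' hfree'
        rw [← eF'] at hns
        intro hcc
        apply hns
        rw [← List.reverse_infix] at hcc
        simpa using hcc
    apply hcb
    rw [hMr]
    simp only [List.length_append, List.length_cons, List.length_nil]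
    omega
  -- so everything fits in the trivial entry
  have c4 : ∃ X Y, Tr = X ++ F' ++ h 23 ++ F ++ Y := by
    rcases List.append_eq_append_iff.1 hMidEq with ⟨as, ha1, ha2⟩ | ⟨bs, hb1, hb2⟩
    · exfalso
      apply hca
      rw [ha1]
      simp only [List.length_append]
      omega
    · -- MR.reverse ++ Tr = (h 22 ++ F' ++ h 23) ++ bs, F ++ h 24 = bs ++ MR
      obtain ⟨ys, hys⟩ : ∃ ys, bs = F ++ ys := by
        rcases List.append_eq_append_iff.1 hb2 with ⟨cs, hc1, hc2⟩ | ⟨ds, hd1, hd2⟩
        · exact ⟨cs, hc1⟩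
        · have h5 := congrArg List.length hb1
          have h6 := congrArg List.length hd1
          have h7 := congrArg List.length hG
          simp only [List.length_append, List.length_cons, List.length_nil] at h5 h6 h7 c1
          have h8 : ds = [] := List.length_eq_zero_iff.1 (by omega)
          subst h8
          exact ⟨[], by rw [hd1]; simp⟩
      obtain ⟨xs, hxs⟩ : ∃ xs, h 22 = MR.reverse ++ xs := by
        have h9 : MR.reverse ++ Tr = h 22 ++ (F' ++ h 23 ++ bs) := by
          rw [hb1]; simp only [List.append_assoc]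
        rcases List.append_eq_append_iff.1 h9 with ⟨cs, hc1, hc2⟩ | ⟨ds, hd1, hd2⟩
        · exact ⟨cs, hc1⟩
        · have h6 := congrArg List.length hd1
          simp only [List.length_append] at h6
          have h8 : ds = [] := List.length_eq_zero_iff.1 (by omega)
          subst h8
          exact ⟨[], by rw [hd1]; simp⟩
      refine ⟨xs, ys, ?_⟩
      rw [hxs, hys] at hb1
      have h10 : MR.reverse ++ Tr = MR.reverse ++ (xs ++ F' ++ h 23 ++ F ++ ys) := by
        rw [hb1]; simp only [List.append_assoc]
      exact List.append_cancel_left h10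
  obtain ⟨X, Y, hXY⟩ := c4
  have h11 := congrArg (List.count s) hXY
  have h12 : Tr.count s = 8 := by decide
  have h13 : 7 ≤ F.count s := by
    rw [← hF, eF]
    exact count_sep (l := [h 1, h 2, h 3, h 4, h 5, h 7])
  have h14 : 7 ≤ F'.count s := by
    rw [← List.count_reverse, ← hF', eF']
    exact count_sep (l := [(h 11).reverse, (h 12).reverse,
      (h 13).reverse, (h 14).reverse, (h 15).reverse, (h 17).reverse])
  simp only [List.count_append] at h11
  omega

end Pool.Agent.Lib.MP_2432f5_co
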