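import Mathlib

/-! Facts on the period-doubling word `pd`, indexed from 1. -/

namespace Pool.Agent.Lib.MP_2432f5_co

/-- the period-doubling word: the parity of the 2-adic valuation -/
def pd (j : ℕ) : Bool := decide (padicValNat 2 j % 2 = 1)

theorem pd_odd (j : ℕ) : pd (2 * j + 1) = false := by
  have h : padicValNat 2 (2 * j + 1) = 0 := by
    apply padicValNat.eq_zero_of_not_dvd
    omega
  simp [pd, h]

theorem pd_even {j : ℕ} (hj : 0 < j) : pd (2 * j) = !pd j := by
  have h : padicValNat 2 (2 * j) = 1 + padicValNat 2 j := by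
    rw [padicValNat.mul (by norm_num) (by omega)]
    simp
  unfold pd
  rw [h]
  rcases Nat.mod_two_eq_zero_or_one (padicValNat 2 j) with h0 | h0
  · have : (1 + padicValNat 2 j) % 2 = 1 := by omega
    simp [h0, this]
  · have : (1 + padicValNat 2 j) % 2 = 0 := by omega
    simp [h0, this]

theorem pd_of_odd {j : ℕ} (hj : j % 2 = 1) : pd j = false := by
  obtain ⟨k, rfl⟩ : ∃ k, j = 2 * k + 1 := ⟨j / 2, by omega⟩
  exact pd_odd k

theorem pd_of_two_mod_four {j : ℕ} (hj : j % 4 = 2) : pd j = true := by
  obtain ⟨k, rfl⟩ : ∃ k, j = 2 * (2 * k + 1) := ⟨j / 4, by omega⟩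
  rw [pd_even (by omega), pd_odd]
  rfl

theorem even_of_pd {j : ℕ} (h : pd j = true) : j % 2 = 0 := by
  by_contra hc
  have := pd_of_odd (j := j) (by omega)
  simp [this] at h

/-- `pd` has no fourth power -/
theorem no4 : ∀ (l : ℕ), 0 < l → ∀ j : ℕ,
    ¬ (∀ x, 1 ≤ x → x ≤ 3 * l → pd (j + x) = pd (j + x + l)) := by
  intro l
  induction l using Nat.strong_induction_on with
  | _ l ih =>
    intro hl j h
    rcases Nat.even_or_odd' l with ⟨m, rfl | rfl⟩
    · -- even
      refine ih m (by omega) (by omega) (j / 2) ?_
      intro y hy1 hy2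
      have h1 : ∃ x, 1 ≤ x ∧ x ≤ 3 * (2 * m) ∧ j + x = 2 * (j / 2 + y) :=
        ⟨2 * (j / 2 + y) - j, by omega, by omega, by omega⟩
      obtain ⟨x, hx1, hx2, hx3⟩ := h1
      have h2 := h x hx1 hx2
      have h3 : j + x + 2 * m = 2 * (j / 2 + y + m) := by omega
      rw [h3, hx3, pd_even (by omega), pd_even (by omega)] at h2
      simpa using h2
    · -- odd: everything is false
      have hz : ∀ x, 1 ≤ x → x ≤ 4 * (2 * m + 1) → pd (j + x) = false := by
        intro x hx1 hx2
        by_cases hx : x ≤ 3 * (2 * m + 1)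
        · have h2 := h x hx1 hx
          by_cases hp : (j + x) % 2 = 1
          · exact pd_of_odd hp
          · rw [h2]; exact pd_of_odd (by omega)
        · have h2 := h (x - (2 * m + 1)) (by omega) (by omega)
          have h3 : j + (x - (2 * m + 1)) + (2 * m + 1) = j + x := by omega
          rw [h3] at h2
          by_cases hp : (j + x) % 2 = 1
          · exact pd_of_odd hp
          · rw [← h2]; exact pd_of_odd (by omega)
      have h4 : ∃ x, 1 ≤ x ∧ x ≤ 4 ∧ (j + x) % 4 = 2 := by
        have : j % 4 < 4 := Nat.mod_lt _ (by norm_num)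
        interval_cases hj : j % 4
        · exact ⟨2, by omega, by omega, by omega⟩
        · exact ⟨1, by omega, by omega, by omega⟩
        · exact ⟨4, by omega, by omega, by omega⟩
        · exact ⟨3, by omega, by omega, by omega⟩
      obtain ⟨x, hx1, hx2, hx3⟩ := h4
      have h5 := hz x hx1 (by omega)
      have h6 := pd_of_two_mod_four hx3
      simp [h5] at h6

/-- parity property of five terms of `pd` in arithmetic progression -/
theorem ap5 : ∀ (l : ℕ), 0 < l → ∀ j : ℕ, 0 < j →
    pd (j + l) = pd (j + 3 * l) ∨ (pd j = pd (j + 2 * l) ∧ pd j = pd (j + 4 * l)) := by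
  intro l
  induction l using Nat.strong_induction_on with
  | _ l ih =>
    intro hl j hj
    rcases Nat.even_or_odd' l with ⟨m, rfl | rfl⟩
    · rcases Nat.even_or_odd' j with ⟨i, rfl | rfl⟩
      · have := ih m (by omega) (by omega) i (by omega)
        have e1 : 2 * i + 2 * m = 2 * (i + m) := by ring
        have e2 : 2 * i + 3 * (2 * m) = 2 * (i + 3 * m) := by ring
        have e3 : 2 * i + 2 * (2 * m) = 2 * (i + 2 * m) := by ring
        have e4 : 2 * i + 4 * (2 * m) = 2 * (i + 4 * m) := by ring
        rw [e1, e2, e3, e4, pd_even (by omega), pd_even (by omega), pd_even (by omega),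
          pd_even (by omega), pd_even (by omega)]
        simpa using this
      · left
        rw [pd_of_odd (by omega), pd_of_odd (by omega)]
    · by_cases hj2 : j % 2 = 1
      · right
        rw [pd_of_odd hj2, pd_of_odd (by omega), pd_of_odd (by omega)]
        exact ⟨rfl, rfl⟩
      · left
        rw [pd_of_odd (by omega), pd_of_odd (by omega)]

/-- the four windows of length `l - 1` between the points `j`, `j+l`, ..., `j+4l` agree -/
def Win (j l : ℕ) : Prop :=
  ∀ x, 1 ≤ x → x < l →
    pd (j + x) = pd (j + l + x) ∧ pd (j + x) = pd (j + 2 * l + x) ∧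
      pd (j + x) = pd (j + 3 * l + x)

/-- the three kinds of contexts -/
inductive Kind (j l : ℕ) (e : Bool) : Bool → Prop
  | anchored : j = 0 → pd l = e → pd (2 * l) = (!e) → pd (3 * l) = e → Kind j l e e
  | run : 0 < j → pd j = (!e) → pd (j + l) = e → pd (j + 2 * l) = e → pd (j + 3 * l) = e →
      Kind j l e (!e)
  | turn : 0 < j → pd j = e → pd (j + l) = (!e) → pd (j + 2 * l) = e → pd (j + 3 * l) = e →
      Kind j l e e

theorem kind_next {j l : ℕ} (hl : 0 < l) (hw : Win j l) {e n : Bool} (h : Kind j l e n) :
    pd (j + 4 * l) = n := by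
  cases h with
  | anchored h0 h1 h2 h3 =>
    subst h0
    have : 0 + 4 * l = 2 * (2 * l) := by ring
    rw [this, pd_even (by omega), pd_even hl, h1]
    simp
  | run hj h0 h1 h2 h3 =>
    by_contra hne
    have h4 : pd (j + 4 * l) = e := by
      cases hh : pd (j + 4 * l) <;> cases e <;> simp_all
    refine no4 l hl j ?_
    intro x hx1 hx2
    -- split x
    by_cases c1 : x < l
    · have := (hw x hx1 c1).1
      rw [this]; congr 1; omega
    by_cases c2 : x = l
    · subst c2
      rw [h1, ← h2]; congr 1; omega
    by_cases c3 : x < 2 * l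
    · have a1 := hw (x - l) (by omega) (by omega)
      have e1 : j + l + (x - l) = j + x := by omega
      have e2 : j + 2 * l + (x - l) = j + x + l := by omega
      rw [e1, e2] at a1
      rw [← a1.1, ← a1.2.1]
    by_cases c4 : x = 2 * l
    · subst c4
      rw [h2, ← h3]; congr 1; omega
    by_cases c5 : x < 3 * l
    · have a1 := hw (x - 2 * l) (by omega) (by omega)
      have e1 : j + 2 * l + (x - 2 * l) = j + x := by omega
      have e2 : j + 3 * l + (x - 2 * l) = j + x + l := by omega
      rw [e1, e2] at a1
      rw [← a1.2.1, ← a1.2.2]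
    · have c6 : x = 3 * l := by omega
      subst c6
      rw [h3, ← h4]; congr 1; omega
  | turn hj h0 h1 h2 h3 =>
    rcases ap5 l hl j hj with h | h
    · rw [h1, h3] at h
      cases e <;> simp at h
    · rw [← h.2, h0]

/-- `j` has a context -/
def Ctx (j : ℕ) : Prop :=
  ∃ i l e, 0 < l ∧ j = i + 4 * l ∧ Win i l ∧ Kind i l e (pd j)

theorem ctx_double {j : ℕ} (h : Ctx j) : Ctx (2 * j) := by
  obtain ⟨i, l, e, hl, rfl, hw, hk⟩ := h
  refine ⟨2 * i, 2 * l, !e, by omega, by ring, ?_, ?_⟩
  · intro x hx1 hx2
    rcases Nat.even_or_odd' x with ⟨y, rfl | rfl⟩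
    · have := hw y (by omega) (by omega)
      have e1 : 2 * i + 2 * y = 2 * (i + y) := by ring
      have e2 : 2 * i + 2 * l + 2 * y = 2 * (i + l + y) := by ring
      have e3 : 2 * i + 2 * (2 * l) + 2 * y = 2 * (i + 2 * l + y) := by ring
      have e4 : 2 * i + 3 * (2 * l) + 2 * y = 2 * (i + 3 * l + y) := by ring
      rw [e1, e2, e3, e4, pd_even (by omega), pd_even (by omega), pd_even (by omega),
        pd_even (by omega)]
      simpa using this
    · rw [pd_of_odd (by omega), pd_of_odd (by omega), pd_of_odd (by omega), pd_of_odd (by omega)]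
      exact ⟨rfl, rfl, rfl⟩
  · have hn : pd (2 * (i + 4 * l)) = !pd (i + 4 * l) := pd_even (by omega)
    rw [hn]
    generalize pd (i + 4 * l) = n at hk
    cases hk with
    | anchored h0 h1 h2 h3 =>
      refine Kind.anchored (by omega) ?_ ?_ ?_
      · rw [pd_even hl, h1]
      · rw [pd_even (by omega), h2]
      · have : 3 * (2 * l) = 2 * (3 * l) := by ring
        rw [this, pd_even (by omega), h3]
    | run hj h0 h1 h2 h3 =>
      refine Kind.run (by omega) ?_ ?_ ?_ ?_
      · rw [pd_even hj, h0]
      · have : 2 * i + 2 * l = 2 * (i + l) := by ring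
        rw [this, pd_even (by omega), h1]
      · have : 2 * i + 2 * (2 * l) = 2 * (i + 2 * l) := by ring
        rw [this, pd_even (by omega), h2]
      · have : 2 * i + 3 * (2 * l) = 2 * (i + 3 * l) := by ring
        rw [this, pd_even (by omega), h3]
    | turn hj h0 h1 h2 h3 =>
      refine Kind.turn (by omega) ?_ ?_ ?_ ?_
      · rw [pd_even hj, h0]
      · have : 2 * i + 2 * l = 2 * (i + l) := by ring
        rw [this, pd_even (by omega), h1]
      · have : 2 * i + 2 * (2 * l) = 2 * (i + 2 * l) := by ring
        rw [this, pd_even (by omega), h2]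
      · have : 2 * i + 3 * (2 * l) = 2 * (i + 3 * l) := by ring
        rw [this, pd_even (by omega), h3]

theorem win_one (i : ℕ) : Win i 1 := by
  intro x hx1 hx2
  omega

theorem ctx_odd {j : ℕ} (hj : 5 ≤ j) (ho : j % 2 = 1) (hp : pd (j - 1) = false) : Ctx j := by
  have h4 : j % 4 = 1 := by
    by_contra hc
    have : pd (j - 1) = true := pd_of_two_mod_four (by omega)
    simp [hp] at this
  refine ⟨j - 4, 1, false, by norm_num, by omega, win_one _, ?_⟩
  have hn : pd j = false := pd_of_odd ho
  rw [hn]
  refine Kind.turn (by omega) ?_ ?_ ?_ ?_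
  · exact pd_of_odd (by omega)
  · simpa using pd_of_two_mod_four (j := j - 4 + 1) (by omega)
  · exact pd_of_odd (by omega)
  · have : j - 4 + 3 * 1 = j - 1 := by omega
    rw [this, hp]

theorem ctx_even : ∀ i : ℕ, 2 ≤ i → Ctx (2 * i) := by
  intro i
  induction i using Nat.strong_induction_on with
  | _ i ih =>
    intro hi
    by_cases h2 : i = 2
    · subst h2
      refine ⟨0, 1, false, by norm_num, by norm_num, win_one _, ?_⟩
      have e1 : pd 1 = false := pd_of_odd (by norm_num)
      have e2 : pd 2 = true := pd_of_two_mod_four (by norm_num)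
      have e3 : pd 3 = false := pd_of_odd (by norm_num)
      have e4 : pd (2 * 2) = false := by
        rw [pd_even (by norm_num), e2]; rfl
      rw [e4]
      exact Kind.anchored rfl e1 e2 e3
    · rcases Nat.even_or_odd' i with ⟨k, rfl | rfl⟩
      · exact ctx_double (ih k (by omega) (by omega))
      · cases hp : pd (2 * k)
        · apply ctx_double
          have hk : 2 ≤ k := by
            by_contra hc
            have hk1 : k = 1 := by omega
            subst hk1
            have : pd (2 * 1) = true := pd_of_two_mod_four (by norm_num)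
            simp [hp] at this
          exact ctx_odd (by omega) (by omega) (by simpa using hp)
        · refine ⟨2 * (2 * k + 1) - 4, 1, false, by norm_num, by omega, win_one _, ?_⟩
          have hn : pd (2 * (2 * k + 1)) = true := pd_of_two_mod_four (by omega)
          rw [hn]
          refine Kind.run (by omega) ?_ ?_ ?_ ?_
          · simpa using pd_of_two_mod_four (j := 2 * (2 * k + 1) - 4) (by omega)
          · exact pd_of_odd (by omega)
          · have : 2 * (2 * k + 1) - 4 + 2 * 1 = 2 * (2 * k) := by omega
            rw [this, pd_even (by omega), hp]; rfl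
          · exact pd_of_odd (by omega)

/-- every `j ≥ 4` has a context, or is odd and its predecessor has a context and value `true` -/
theorem ctx_cover {j : ℕ} (hj : 4 ≤ j) :
    Ctx j ∨ (pd (j - 1) = true ∧ pd j = false ∧ Ctx (j - 1)) := by
  rcases Nat.even_or_odd' j with ⟨i, rfl | rfl⟩
  · exact Or.inl (ctx_even i (by omega))
  · cases hp : pd (2 * i)
    · exact Or.inl (ctx_odd (by omega) (by omega) (by simpa using hp))
    · right
      refine ⟨by simpa using hp, pd_odd i, ?_⟩
      have : 2 * i + 1 - 1 = 2 * i := by omega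
      rw [this]
      exact ctx_even i (by omega)

end Pool.Agent.Lib.MP_2432f5_co
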