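import Pool.Agent.Lib.MP_2432f5_co.Words

/-! The entries of the dictionary are never realised in the infinite word, and every wrong
continuation realises one. -/

namespace Pool.Agent.Lib.MP_2432f5_co

open Ch

/-- the word that an entry together with a value of `V` spells -/
def spell (e : Ent) (V : List Ch) : List Ch :=
  [e.c0] ++ V ++ [u, e.c1] ++ V ++ [u, e.c2] ++ V ++ [u, e.c3] ++ V ++ e.c4 ++ [e.d]

theorem R_le_nine {k : ℕ} (h : k ≤ 9) : R k = a := by
  unfold R
  split_ifs
  · rfl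
  · have : k = 9 := by omega
    subst this
    rfl

theorem truth {e : Ent} (he : e ∈ ents) {V : List Ch} (hV : V ≠ []) (i : ℕ) :
    ¬ Occ R i (spell e V) := by
  intro h
  obtain ⟨c, hc, t, ht, d, hd, rfl⟩ := mem_ents.1 he
  have hv : 0 < V.length := List.length_pos_iff.2 hV
  simp only [spell, occ_append, occ_cons, occ_nil, and_true, List.length_append, List.length_cons,
    List.length_nil, List.cons_append, List.nil_append] at h
  set v := V.length with hvdef
  set tl := t.1.length with htl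
  obtain ⟨h0, ⟨⟨⟨⟨⟨⟨⟨hV0, hu1, h1⟩, hV1⟩, hu2, h2⟩, hV2⟩, hu3, h3⟩, hV3⟩, hu4, htail⟩, hdd⟩ := h
  -- normalise the positions
  have hV0' : Occ R (i + 1) V := by simpa using hV0
  have hu1' : R (i + 1 + v) = u := hu1
  have h1' : R (i + (v + 2)) = c.2.1 := by rw [← h1]; congr 1; omega
  have hV1' : Occ R (i + (v + 2) + 1) V := by
    convert hV1 using 1; omega
  have h2' : R (i + 2 * (v + 2)) = c.2.2.1 := by rw [← h2]; congr 1; omega
  have hV2' : Occ R (i + 2 * (v + 2) + 1) V := by
    convert hV2 using 1; omega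
  have h3' : R (i + 3 * (v + 2)) = c.2.2.2.1 := by rw [← h3]; congr 1; omega
  have hV3' : Occ R (i + 3 * (v + 2) + 1) V := by
    convert hV3 using 1; omega
  have htail' : Occ R (i + 4 * (v + 2)) t.1 := by
    convert htail using 1; omega
  have hdd' : R (i + 4 * (v + 2) + tl) = d := by rw [← hdd]; congr 1; omega
  clear hV0 hu1 h1 hV1 hu2 h2 hV2 hu3 h3 hV3 hu4 htail hdd
  -- the occurrence starts at or after the anchor
  have hi1 : 10 ≤ i + 1 + v := by
    by_contra hcon
    rw [R_le_nine (by omega)] at hu1'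
    simp at hu1'
  have hi : 9 ≤ i := by
    by_contra hcon
    have e1 := occ_eq hV0' hV1' 0 hv
    simp only [add_zero] at e1
    rw [R_le_nine (k := i + 1) (by omega), R_ge (k := i + (v + 2) + 1) (by omega)] at e1
    exact T_ne_a (by omega) e1.symm
  obtain ⟨t0, rfl⟩ : ∃ t0, i = t0 + 9 := ⟨i - 9, by omega⟩
  have key : ∀ x, R (t0 + 9 + x) = T (t0 + x) := by
    intro x
    rw [show t0 + 9 + x = t0 + x + 9 by ring, R_add]
  set L := v + 2 with hL
  rw [show t0 + 9 = t0 + 9 + 0 by ring, key, add_zero] at h0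
  rw [key] at h1' h2' h3'
  have hd4 : T (t0 + 4 * L + tl) = d := by
    rw [← hdd', show t0 + 9 + 4 * L + tl = t0 + 9 + (4 * L + tl) by ring, key]
    congr 1
    ring
  obtain ⟨e, hce⟩ := ctx_cases hc
  have hbits : (∃ b, c.2.1 = bit b) ∧ (∃ b, c.2.2.1 = bit b) ∧ (∃ b, c.2.2.2.1 = bit b) := by
    rcases hce with rfl | rfl | rfl
    · exact ⟨⟨_, rfl⟩, ⟨_, rfl⟩, ⟨_, rfl⟩⟩
    · exact ⟨⟨_, rfl⟩, ⟨_, rfl⟩, ⟨_, rfl⟩⟩
    · exact ⟨⟨_, rfl⟩, ⟨_, rfl⟩, ⟨_, rfl⟩⟩
  obtain ⟨⟨b1, hb1⟩, ⟨b2, hb2⟩, ⟨b3, hb3⟩⟩ := hbits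
  have m1 := mod_of_T_bit (h1'.trans hb1)
  have m2 := mod_of_T_bit (h2'.trans hb2)
  obtain ⟨j, hj⟩ : ∃ j, t0 = 3 * j := ⟨t0 / 3, by omega⟩
  obtain ⟨l, hl⟩ : ∃ l, L = 3 * l := ⟨L / 3, by omega⟩
  have hl0 : 0 < l := by omega
  subst hj
  have hwin : Win j l := by
    intro x hx1 hx2
    have g1 := occ_eq hV0' hV1' (3 * x - 1) (by omega)
    have g2 := occ_eq hV0' hV2' (3 * x - 1) (by omega)
    have g3 := occ_eq hV0' hV3' (3 * x - 1) (by omega)
    rw [show 3 * j + 9 + 1 + (3 * x - 1) = 3 * j + 9 + 3 * x by omega, key] at g1 g2 g3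
    rw [show 3 * j + 9 + L + 1 + (3 * x - 1) = 3 * j + 9 + (3 * l + 3 * x) by omega, key] at g1
    rw [show 3 * j + 9 + 2 * L + 1 + (3 * x - 1) = 3 * j + 9 + (3 * (2 * l) + 3 * x) by omega,
      key] at g2
    rw [show 3 * j + 9 + 3 * L + 1 + (3 * x - 1) = 3 * j + 9 + (3 * (3 * l) + 3 * x) by omega,
      key] at g3
    rw [show 3 * j + 3 * x = 3 * (j + x) by ring, T_mul (by omega)] at g1 g2 g3
    rw [show 3 * j + (3 * l + 3 * x) = 3 * (j + l + x) by ring, T_mul (by omega)] at g1
    rw [show 3 * j + (3 * (2 * l) + 3 * x) = 3 * (j + 2 * l + x) by ring, T_mul (by omega)] at g2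
    rw [show 3 * j + (3 * (3 * l) + 3 * x) = 3 * (j + 3 * l + x) by ring, T_mul (by omega)] at g3
    exact ⟨bit_inj g1, bit_inj g2, bit_inj g3⟩
  have q1 : pd (j + l) = b1 := by
    apply pd_of_T_bit
    rw [← hb1, ← h1', hl]
    congr 1
    ring
  have q2 : pd (j + 2 * l) = b2 := by
    apply pd_of_T_bit
    rw [← hb2, ← h2', hl]
    congr 1
    ring
  have q3 : pd (j + 3 * l) = b3 := by
    apply pd_of_T_bit
    rw [← hb3, ← h3', hl]
    congr 1
    ring
  have hkind : ∃ e, Kind j l e c.2.2.2.2 := by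
    rcases hce with rfl | rfl | rfl
    · have j0 : j = 0 := by
        by_contra hcon
        exact T_ne_a (i := 3 * j) (by omega) h0
      subst j0
      simp only [zero_add] at q1 q2 q3
      refine ⟨e, Kind.anchored rfl ?_ ?_ ?_⟩
      · rw [q1]; exact (bit_inj hb1).symm
      · rw [q2]; exact (bit_inj hb2).symm
      · rw [q3]; exact (bit_inj hb3).symm
    · have j0 := pos_of_T_bit h0
      refine ⟨e, Kind.run (by omega) (pd_of_T_bit h0) ?_ ?_ ?_⟩
      · rw [q1]; exact (bit_inj hb1).symm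
      · rw [q2]; exact (bit_inj hb2).symm
      · rw [q3]; exact (bit_inj hb3).symm
    · have j0 := pos_of_T_bit h0
      refine ⟨e, Kind.turn (by omega) (pd_of_T_bit h0) ?_ ?_ ?_⟩
      · rw [q1]; exact (bit_inj hb1).symm
      · rw [q2]; exact (bit_inj hb2).symm
      · rw [q3]; exact (bit_inj hb3).symm
  obtain ⟨e', hkind⟩ := hkind
  have hnext := kind_next hl0 hwin hkind
  generalize c.2.2.2.2 = n at hnext ht
  have p0 : T (3 * j + 4 * L) = bit n := by
    rw [hl, show 3 * j + 4 * (3 * l) = 3 * (j + 4 * l) by ring, T_mul (by omega), hnext]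
  have p1 : T (3 * j + 4 * L + 1) = u := T_other (by omega)
  have p2 : T (3 * j + 4 * L + 2) = u := T_other (by omega)
  have p4 : T (3 * j + 4 * L + 4) = u := T_other (by omega)
  have p5 : T (3 * j + 4 * L + 5) = u := T_other (by omega)
  simp only [tails, List.mem_append, List.mem_cons, List.not_mem_nil, or_false] at ht
  rcases ht with (rfl | rfl | rfl) | ht
  · apply hd
    rw [← hd4, ← p0]
    rfl
  · apply hd
    rw [← hd4, ← p1]
    rfl
  · apply hd
    rw [← hd4, ← p2]
    rfl
  · cases n with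
    | false => simp at ht
    | true =>
      have p3 : T (3 * j + 4 * L + 3) = z := by
        rw [hl, show 3 * j + 4 * (3 * l) + 3 = 3 * (j + 4 * l + 1) by ring, T_mul (by omega),
          pd_of_odd (by have := even_of_pd hnext; omega)]
        rfl
      simp only [if_true, List.mem_cons, List.not_mem_nil, or_false] at ht
      rcases ht with rfl | rfl | rfl
      · apply hd
        rw [← hd4, ← p3]
        rfl
      · apply hd
        rw [← hd4, ← p4]
        rfl
      · apply hd
        rw [← hd4, ← p5]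
        rfl

/-- a segment of `T` with the shape of a context followed by a tail -/
theorem spell_of_ctx {i l : ℕ} {e n : Bool} (hl : 0 < l) (hw : Win i l) (hk : Kind i l e n)
    (tl : List Ch) (g : Ch) (ht : (tl, g) ∈ tails n)
    (htl : Occ T (3 * (i + 4 * l)) tl) (d : Ch) (hd : d ≠ g) :
    ∃ E ∈ ents, ∃ V : List Ch, V ≠ [] ∧
      spell E V = seg T (3 * i) (12 * l + tl.length) ++ [d] := by
  have hV0 : 0 < 3 * l - 2 := by omega
  -- the four equal windows
  have hper : ∀ k, k ≤ 3 → Occ T (3 * (i + k * l) + 1) (seg T (3 * i + 1) (3 * l - 2)) := by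
    intro k hk3
    have : seg T (3 * i + 1) (3 * l - 2) = seg T (3 * (i + k * l) + 1) (3 * l - 2) := by
      unfold seg
      apply List.map_congr_left
      intro t ht
      rw [List.mem_range] at ht
      by_cases h3 : (t + 1) % 3 = 0
      · obtain ⟨x, hx⟩ : ∃ x, t + 1 = 3 * x := ⟨(t + 1) / 3, by omega⟩
        have hx1 : 1 ≤ x := by omega
        have hx2 : x < l := by omega
        rw [show 3 * i + 1 + t = 3 * (i + x) by omega,
          show 3 * (i + k * l) + 1 + t = 3 * (i + k * l + x) by omega, T_mul (by omega),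
          T_mul (by omega)]
        have hh := hw x hx1 hx2
        congr 1
        interval_cases k
        · simp
        · simpa using hh.1
        · exact hh.2.1
        · exact hh.2.2
      · rw [T_other (by omega), T_other (by omega)]
    rw [this]
    exact occ_seg _ _ _
  have hu : ∀ k, k ≤ 3 → T (3 * (i + k * l) + 1 + (3 * l - 2)) = u := by
    intro k _
    apply T_other
    omega
  obtain ⟨c, hcm, hc0, hc1, hc2, hc3, hcn⟩ : ∃ c ∈ ctxs, T (3 * i) = c.1 ∧
      T (3 * (i + 1 * l)) = c.2.1 ∧ T (3 * (i + 2 * l)) = c.2.2.1 ∧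
      T (3 * (i + 3 * l)) = c.2.2.2.1 ∧ c.2.2.2.2 = n := by
    rw [T_mul (j := i + 1 * l) (by omega), T_mul (j := i + 2 * l) (by omega),
      T_mul (j := i + 3 * l) (by omega), one_mul]
    cases hk with
    | anchored h0 h1 h2 h3 =>
      subst h0
      refine ⟨_, ctx_mem_a e, rfl, ?_, ?_, ?_, rfl⟩
      · rw [zero_add, h1]
      · rw [zero_add, h2]
      · rw [zero_add, h3]
    | run hj h0 h1 h2 h3 =>
      refine ⟨_, ctx_mem_b e, ?_, ?_, ?_, ?_, rfl⟩
      · rw [T_mul hj, h0]
      · rw [h1]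
      · rw [h2]
      · rw [h3]
    | turn hj h0 h1 h2 h3 =>
      refine ⟨_, ctx_mem_c e, ?_, ?_, ?_, ?_, rfl⟩
      · rw [T_mul hj, h0]
      · rw [h1]
      · rw [h2]
      · rw [h3]
  subst hcn
  refine ⟨⟨c.1, c.2.1, c.2.2.1, c.2.2.2.1, u :: tl, d⟩,
    mem_ents.2 ⟨c, hcm, (tl, g), ht, d, hd, rfl⟩, seg T (3 * i + 1) (3 * l - 2),
    seg_ne_nil hV0, ?_⟩
  unfold spell
  rw [List.append_left_inj]
  apply occ_unique (f := T) (i := 3 * i)
  · simp only [occ_append, occ_cons, occ_nil, and_true, List.length_append, List.length_cons,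
      List.length_nil, seg_length]
    have w0 := hper 0 (by norm_num)
    have w1 := hper 1 (by norm_num)
    have w2 := hper 2 (by norm_num)
    have w3 := hper 3 (by norm_num)
    have v0 := hu 0 (by norm_num)
    have v1 := hu 1 (by norm_num)
    have v2 := hu 2 (by norm_num)
    have v3 := hu 3 (by norm_num)
    refine ⟨⟨⟨⟨⟨⟨⟨⟨hc0, ?_⟩, ?_, ?_⟩, ?_⟩, ?_, ?_⟩, ?_⟩, ?_, ?_⟩, ?_⟩, ?_, ?_⟩
    · convert w0 using 1; omega
    · rw [← v0]; congr 1; omega
    · rw [← hc1]; congr 1; omega
    · convert w1 using 1; omega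
    · rw [← v1]; congr 1; omega
    · rw [← hc2]; congr 1; omega
    · convert w2 using 1; omega
    · rw [← v2]; congr 1; omega
    · rw [← hc3]; congr 1; omega
    · convert w3 using 1; omega
    · rw [← v3]; congr 1; omega
    · convert htl using 1; omega
  · exact occ_seg _ _ _
  · simp only [List.length_append, List.length_cons, List.length_nil, seg_length]
    omega

/-- every wrong continuation of the infinite word spells an entry -/
theorem wrong_spells {n : ℕ} (hn : 12 ≤ n) {d : Ch} (hd : d ≠ T n) :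
    ∃ E ∈ ents, ∃ V : List Ch, V ≠ [] ∧ ∃ i, spell E V = seg T i (n - i) ++ [d] ∧ i ≤ n := by
  have fin : ∀ {i l : ℕ} {e m : Bool} (hl : 0 < l) (hw : Win i l) (hk : Kind i l e m)
      (tl : List Ch) (ht : (tl, T n) ∈ tails m) (htl : Occ T (3 * (i + 4 * l)) tl)
      (hlen : 3 * (i + 4 * l) + tl.length = n),
      ∃ E ∈ ents, ∃ V : List Ch, V ≠ [] ∧ ∃ i, spell E V = seg T i (n - i) ++ [d] ∧ i ≤ n := by
    intro i l e m hl hw hk tl ht htl hlen
    obtain ⟨E, hE, V, hV, hsp⟩ := spell_of_ctx hl hw hk tl (T n) ht htl d hd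
    refine ⟨E, hE, V, hV, 3 * i, ?_, by omega⟩
    rw [hsp]
    congr 2
    omega
  have hr : n % 3 < 3 := Nat.mod_lt _ (by norm_num)
  have hj4 : 4 ≤ n / 3 := by omega
  rcases ctx_cover hj4 with ⟨i, l, e, hl, hj, hw, hk⟩ | ⟨hp1, hp0, ⟨i, l, e, hl, hj, hw, hk⟩⟩
  · have hb : T (3 * (i + 4 * l)) = bit (pd (n / 3)) := by rw [T_mul (by omega), hj]
    interval_cases hh : n % 3
    · refine fin hl hw hk [] ?_ trivial (by simp; omega)
      rw [show n = 3 * (i + 4 * l) by omega, hb]
      rw [hj]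
      simp [tails]
    · refine fin hl hw hk [bit (pd (n / 3))] ?_ ?_ (by simp; omega)
      · rw [T_other (by omega)]
        simp [tails]
      · simpa using hb
    · refine fin hl hw hk [bit (pd (n / 3)), u] ?_ ?_ (by simp; omega)
      · rw [T_other (by omega)]
        simp [tails]
      · simp only [occ_cons, occ_nil, and_true]
        exact ⟨hb, T_other (by omega)⟩
  · have hb : T (3 * (i + 4 * l)) = o := by rw [T_mul (by omega), ← hj, hp1]; rfl
    have hb3 : T (3 * (i + 4 * l) + 3) = z := by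
      rw [show 3 * (i + 4 * l) + 3 = 3 * (n / 3) by omega, T_mul (by omega), hp0]; rfl
    rw [hp1] at hk
    interval_cases hh : n % 3
    · refine fin hl hw hk [o, u, u] ?_ ?_ (by simp; omega)
      · rw [show n = 3 * (i + 4 * l) + 3 by omega, hb3]
        simp [tails]
      · simp only [occ_cons, occ_nil, and_true]
        exact ⟨hb, T_other (by omega), T_other (by omega)⟩
    · refine fin hl hw hk [o, u, u, z] ?_ ?_ (by simp; omega)
      · rw [T_other (by omega)]
        simp [tails]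
      · simp only [occ_cons, occ_nil, and_true]
        exact ⟨hb, T_other (by omega), T_other (by omega), hb3⟩
    · refine fin hl hw hk [o, u, u, z, u] ?_ ?_ (by simp; omega)
      · rw [T_other (by omega)]
        simp [tails]
      · simp only [occ_cons, occ_nil, and_true]
        exact ⟨hb, T_other (by omega), T_other (by omega), hb3, T_other (by omega)⟩

end Pool.Agent.Lib.MP_2432f5_co
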