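import Pool.Agent.Lib.MP_2432f5_co.PD

/-! The five letter alphabet, the infinite word around the anchor, and the dictionary entries. -/

namespace Pool.Agent.Lib.MP_2432f5_co

/-- the five letters: `z` and `o` code the period-doubling word, `u` is a filler letter,
`a` the anchor, `s` a separator -/
inductive Ch | z | o | u | a | s
  deriving DecidableEq

instance : Fintype Ch := ⟨{Ch.z, Ch.o, Ch.u, Ch.a, Ch.s}, by intro x; cases x <;> simp⟩

open Ch

def bit : Bool → Ch
  | false => z
  | true => o

theorem bit_inj {b c : Bool} (h : bit b = bit c) : b = c := by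
  cases b <;> cases c <;> simp_all [bit]

theorem bit_ne_u (b : Bool) : bit b ≠ u := by cases b <;> simp [bit]
theorem bit_ne_a (b : Bool) : bit b ≠ a := by cases b <;> simp [bit]
theorem bit_ne_s (b : Bool) : bit b ≠ s := by cases b <;> simp [bit]

/-- the infinite word `a u u z u u o u u z ...` -/
def T (i : ℕ) : Ch := if i = 0 then a else if i % 3 = 0 then bit (pd (i / 3)) else u

theorem T_zero : T 0 = a := rfl

theorem T_mul {j : ℕ} (hj : 0 < j) : T (3 * j) = bit (pd j) := by
  unfold T
  rw [if_neg (by omega), if_pos (by omega)]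
  congr 2
  omega

theorem T_other {i : ℕ} (hi : i % 3 ≠ 0) : T i = u := by
  unfold T
  rw [if_neg (by rintro rfl; simp at hi), if_neg hi]

theorem T_ne_s (i : ℕ) : T i ≠ s := by
  unfold T
  split_ifs
  · simp
  · exact bit_ne_s _
  · simp

theorem T_ne_a {i : ℕ} (hi : 0 < i) : T i ≠ a := by
  unfold T
  rw [if_neg (by omega)]
  split_ifs
  · exact bit_ne_a _
  · simp

theorem mod_of_T_bit {i : ℕ} {b : Bool} (h : T i = bit b) : i % 3 = 0 := by
  by_contra hc
  rw [T_other hc] at h
  exact bit_ne_u b h.symm

theorem pos_of_T_bit {i : ℕ} {b : Bool} (h : T i = bit b) : 0 < i := by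
  rcases Nat.eq_zero_or_pos i with h0 | h0
  · subst h0
    exact absurd h.symm (bit_ne_a b)
  · exact h0

theorem pd_of_T_bit {j : ℕ} {b : Bool} (h : T (3 * j) = bit b) : pd j = b := by
  have h0 : 0 < j := by
    have := pos_of_T_bit h
    omega
  rw [T_mul h0] at h
  exact bit_inj h

/-- the infinite word with nine more letters `a` in front -/
def R (k : ℕ) : Ch := if k < 9 then a else T (k - 9)

theorem R_ne_s (k : ℕ) : R k ≠ s := by
  unfold R
  split_ifs
  · simp
  · exact T_ne_s _

theorem R_ge {k : ℕ} (h : 9 ≤ k) : R k = T (k - 9) := by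
  unfold R
  rw [if_neg (by omega)]

theorem R_add (k : ℕ) : R (k + 9) = T k := by
  rw [R_ge (by omega)]
  congr 1

/-- `Occ f i L`: the word `L` occurs in the infinite word `f` at position `i` -/
def Occ (f : ℕ → Ch) : ℕ → List Ch → Prop
  | _, [] => True
  | i, c :: L => f i = c ∧ Occ f (i + 1) L

@[simp] theorem occ_nil (f : ℕ → Ch) (i : ℕ) : Occ f i [] := trivial

@[simp] theorem occ_cons (f : ℕ → Ch) (i : ℕ) (c : Ch) (L : List Ch) :
    Occ f i (c :: L) ↔ f i = c ∧ Occ f (i + 1) L := Iff.rfl

@[simp] theorem occ_append (f : ℕ → Ch) (L M : List Ch) : ∀ i : ℕ,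
    Occ f i (L ++ M) ↔ Occ f i L ∧ Occ f (i + L.length) M := by
  induction L with
  | nil => intro i; simp
  | cons c L ih =>
    intro i
    simp only [List.cons_append, occ_cons, ih, List.length_cons]
    rw [show i + 1 + L.length = i + (L.length + 1) by ring]
    tauto

theorem occ_eq {f : ℕ → Ch} {L : List Ch} : ∀ {i j : ℕ}, Occ f i L → Occ f j L →
    ∀ t, t < L.length → f (i + t) = f (j + t) := by
  induction L with
  | nil => intro i j _ _ t ht; simp at ht
  | cons c L ih =>
    intro i j hi hj t ht
    rw [occ_cons] at hi hj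
    rcases Nat.eq_zero_or_pos t with h0 | h0
    · subst h0
      simpa using hi.1.trans hj.1.symm
    · have := ih hi.2 hj.2 (t - 1) (by simp at ht; omega)
      rw [show i + 1 + (t - 1) = i + t by omega, show j + 1 + (t - 1) = j + t by omega] at this
      exact this

theorem occ_map_range (f : ℕ → Ch) : ∀ (n i : ℕ),
    Occ f i ((List.range n).map (fun t => f (i + t))) := by
  intro n
  induction n with
  | zero => intro i; simp
  | succ n ih =>
    intro i
    rw [List.range_succ, List.map_append, occ_append]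
    refine ⟨ih i, ?_⟩
    simp

theorem occ_iff_eq_map (f : ℕ → Ch) (L : List Ch) : ∀ i : ℕ,
    Occ f i L ↔ L = (List.range L.length).map (fun t => f (i + t)) := by
  induction L with
  | nil => intro i; simp
  | cons c L ih =>
    intro i
    rw [occ_cons, ih, List.length_cons, List.range_succ_eq_map, List.map_cons, List.map_map]
    simp only [List.cons.injEq, add_zero]
    constructor
    · rintro ⟨h1, h2⟩
      refine ⟨h1.symm, ?_⟩
      conv_lhs => rw [h2]
      apply List.map_congr_left
      intro t _
      simp only [Function.comp]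
      congr 1
      omega
    · rintro ⟨h1, h2⟩
      refine ⟨h1.symm, ?_⟩
      conv_lhs => rw [h2]
      apply List.map_congr_left
      intro t _
      simp only [Function.comp]
      congr 1
      omega

/-- word of length `n` at position `i` of `f` -/
def seg (f : ℕ → Ch) (i n : ℕ) : List Ch := (List.range n).map (fun t => f (i + t))

@[simp] theorem seg_length (f : ℕ → Ch) (i n : ℕ) : (seg f i n).length = n := by simp [seg]

theorem occ_seg (f : ℕ → Ch) (i n : ℕ) : Occ f i (seg f i n) := occ_map_range f n i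

theorem eq_seg {f : ℕ → Ch} {L : List Ch} {i : ℕ} (h : Occ f i L) : L = seg f i L.length :=
  (occ_iff_eq_map f L i).1 h

theorem occ_unique {f : ℕ → Ch} {L M : List Ch} {i : ℕ} (hL : Occ f i L) (hM : Occ f i M)
    (h : L.length = M.length) : L = M := by
  rw [eq_seg hL, eq_seg hM, h]

theorem seg_add (f : ℕ → Ch) (i m n : ℕ) : seg f i (m + n) = seg f i m ++ seg f (i + m) n := by
  apply occ_unique (f := f) (i := i)
  · exact occ_seg _ _ _
  · rw [occ_append]
    refine ⟨occ_seg _ _ _, ?_⟩
    rw [seg_length]
    exact occ_seg _ _ _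
  · simp

theorem seg_one (f : ℕ → Ch) (i : ℕ) : seg f i 1 = [f i] := by simp [seg]

theorem seg_zero (f : ℕ → Ch) (i : ℕ) : seg f i 0 = [] := by simp [seg]

theorem seg_ne_nil {f : ℕ → Ch} {i n : ℕ} (h : 0 < n) : seg f i n ≠ [] := by
  intro hc
  have := congrArg List.length hc
  simp at this
  omega

theorem mem_seg {f : ℕ → Ch} {i n : ℕ} {c : Ch} (h : c ∈ seg f i n) :
    ∃ t, t < n ∧ c = f (i + t) := by
  simp only [seg, List.mem_map, List.mem_range] at h
  obtain ⟨t, ht, rfl⟩ := h
  exact ⟨t, ht, rfl⟩

/-- an infix of a segment occurs in the infinite word -/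
theorem occ_of_infix {f : ℕ → Ch} {L : List Ch} {i n : ℕ} (h : L <:+: seg f i n) :
    ∃ j, i ≤ j ∧ Occ f j L := by
  obtain ⟨A, B, hAB⟩ := h
  have h1 := occ_seg f i n
  rw [← hAB, occ_append, occ_append] at h1
  exact ⟨i + A.length, by omega, h1.1.2⟩

/-- no fourth power in the part of `T` after the anchor -/
theorem T_no4 {X : List Ch} (hX : X ≠ []) {i : ℕ} (hi : 0 < i) :
    ¬ Occ T i (X ++ X ++ X ++ X) := by
  intro h
  have hl : 0 < X.length := List.length_pos_iff.2 hX
  simp only [occ_append, List.length_append] at h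
  obtain ⟨⟨⟨h1, h2⟩, h3⟩, h4⟩ := h
  set l := X.length with hldef
  have hper : ∀ t, t < 3 * l → T (i + t) = T (i + t + l) := by
    intro t ht
    by_cases c1 : t < l
    · have := occ_eq h1 h2 t c1
      rw [this]; congr 1; omega
    by_cases c2 : t < 2 * l
    · have := occ_eq h2 h3 (t - l) (by omega)
      rw [show i + l + (t - l) = i + t by omega,
        show i + (l + l) + (t - l) = i + t + l by omega] at this
      exact this
    · have := occ_eq h3 h4 (t - 2 * l) (by omega)
      rw [show i + (l + l) + (t - 2 * l) = i + t by omega,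
        show i + (l + l + l) + (t - 2 * l) = i + t + l by omega] at this
      exact this
  -- l is a multiple of 3
  have h3l : l % 3 = 0 := by
    obtain ⟨t, ht1, ht2⟩ : ∃ t, t < 3 ∧ (i + t) % 3 = 0 := by
      have : i % 3 < 3 := Nat.mod_lt _ (by norm_num)
      interval_cases hh : i % 3
      · exact ⟨0, by omega, by omega⟩
      · exact ⟨2, by omega, by omega⟩
      · exact ⟨1, by omega, by omega⟩
    have h5 := hper t (by omega)
    by_contra hc
    have h6 : T (i + t + l) = u := T_other (by omega)
    have h7 : T (i + t) = bit (pd ((i + t) / 3)) := by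
      rw [← T_mul (j := (i + t) / 3) (by omega)]
      congr 1
      omega
    rw [h6, h7] at h5
    exact bit_ne_u _ h5
  obtain ⟨m, hm⟩ : ∃ m, l = 3 * m := ⟨l / 3, by omega⟩
  refine no4 m (by omega) ((i - 1) / 3) ?_
  intro x hx1 hx2
  have h8 := hper (3 * ((i - 1) / 3 + x) - i) (by omega)
  rw [show i + (3 * ((i - 1) / 3 + x) - i) = 3 * ((i - 1) / 3 + x) by omega, hm,
    show 3 * ((i - 1) / 3 + x) + 3 * m = 3 * ((i - 1) / 3 + x + m) by ring,
    T_mul (by omega), T_mul (by omega)] at h8
  exact bit_inj h8

/-- a dictionary entry -/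
structure Ent where
  c0 : Ch
  c1 : Ch
  c2 : Ch
  c3 : Ch
  c4 : List Ch
  d : Ch

/-- contexts: four separating letters and the value that has to follow -/
def ctxs : List (Ch × Ch × Ch × Ch × Bool) :=
  [(a, bit false, bit true, bit false, false), (a, bit true, bit false, bit true, true),
   (bit true, bit false, bit false, bit false, true),
   (bit false, bit true, bit true, bit true, false),
   (bit false, bit true, bit false, bit false, false),
   (bit true, bit false, bit true, bit true, true)]

/-- what is already written after a context that predicts the value `n`, and the next letter -/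
def tails (n : Bool) : List (List Ch × Ch) :=
  [([], bit n), ([bit n], u), ([bit n, u], u)] ++
    (if n then [([o, u, u], z), ([o, u, u, z], u), ([o, u, u, z, u], u)] else [])

def letters : List Ch := [z, o, u, a, s]

/-- all dictionary entries -/
def ents : List Ent :=
  ctxs.flatMap fun c => (tails c.2.2.2.2).flatMap fun t =>
    (letters.filter (fun x => x ≠ t.2)).map fun d => ⟨c.1, c.2.1, c.2.2.1, c.2.2.2.1, u :: t.1, d⟩

theorem mem_ents {e : Ent} : e ∈ ents ↔ ∃ c ∈ ctxs, ∃ t ∈ tails c.2.2.2.2, ∃ d, d ≠ t.2 ∧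
    e = ⟨c.1, c.2.1, c.2.2.1, c.2.2.2.1, u :: t.1, d⟩ := by
  have hall : ∀ d : Ch, d ∈ letters := by intro d; cases d <;> simp [letters]
  constructor
  · intro h
    simp only [ents, List.mem_flatMap, List.mem_map, List.mem_filter, decide_eq_true_eq] at h
    obtain ⟨c, hc, t, ht, d, ⟨_, hd⟩, rfl⟩ := h
    exact ⟨c, hc, t, ht, d, hd, rfl⟩
  · rintro ⟨c, hc, t, ht, d, hd, rfl⟩
    simp only [ents, List.mem_flatMap, List.mem_map, List.mem_filter, decide_eq_true_eq]
    exact ⟨c, hc, t, ht, d, ⟨hall d, hd⟩, rfl⟩

/-- the kind of a context -/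
theorem ctx_cases {c : Ch × Ch × Ch × Ch × Bool} (hc : c ∈ ctxs) : ∃ e : Bool,
    c = (a, bit e, bit (!e), bit e, e) ∨ c = (bit (!e), bit e, bit e, bit e, !e) ∨
      c = (bit e, bit (!e), bit e, bit e, e) := by
  simp only [ctxs, List.mem_cons, List.not_mem_nil, or_false] at hc
  rcases hc with rfl | rfl | rfl | rfl | rfl | rfl
  · exact ⟨false, by simp⟩
  · exact ⟨true, by simp⟩
  · exact ⟨false, by simp⟩
  · exact ⟨true, by simp⟩
  · exact ⟨false, by simp⟩
  · exact ⟨true, by simp⟩

theorem ctx_mem_a (e : Bool) : (a, bit e, bit (!e), bit e, e) ∈ ctxs := by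
  cases e <;> simp [ctxs]
theorem ctx_mem_b (e : Bool) : (bit (!e), bit e, bit e, bit e, !e) ∈ ctxs := by
  cases e <;> simp [ctxs, bit]
theorem ctx_mem_c (e : Bool) : (bit e, bit (!e), bit e, bit e, e) ∈ ctxs := by
  cases e <;> simp [ctxs, bit]

end Pool.Agent.Lib.MP_2432f5_co
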